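import Pool.Agent.H98.TY.MUV

/-! # The choice of the weight, explicit bounds (helper37)

Copies of `exists_lam` (`Pool/Agent/H87/TW/LAM.lean`) and `exists_lmu` (`Pool/Agent/H98/TY/MUV.lean`) with
`Λ = ((n!)^2 + n!) n + (m n!)^2`. -/

namespace Pool.Agent.H37.XP

open Finset Polynomial Pool.Agent.H72.ES Pool.Agent.H87.SA2 Pool.Agent.H8.AW Pool.Agent.H52.AC
  Pool.Agent.H97.GA Pool.Agent.H87.TW Pool.Agent.H87.TX Pool.Agent.H98.TY

/-- the number of the weights which are zeros of one nonzero linear combination -/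
private theorem lam_card (n : ℕ) (θ c : Fin n → ℂ) (hθ : Function.Injective θ) (hc : c ≠ 0)
    (M : ℕ) : ((range M).filter fun lam => ∑ v, wv n lam (θ v) * c v = 0).card ≤ n := by
  classical
  obtain ⟨P, hP⟩ : ∃ P : Polynomial ℂ, P = ∑ k ∈ range n,
      Polynomial.C (∑ v, c v * θ v ^ k) * Polynomial.X ^ k := ⟨_, rfl⟩
  have h1 : P ≠ 0 := by
    intro h0
    apply hc
    apply Matrix.eq_zero_of_forall_pow_sum_mul_pow_eq_zero hθ
    intro i
    have h2 : P.coeff i = ∑ v, c v * θ v ^ (i : ℕ) := by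
      rw [hP, Polynomial.finsetSum_coeff]
      simp only [Polynomial.coeff_C_mul, Polynomial.coeff_X_pow]
      rw [Finset.sum_eq_single (i : ℕ)]
      · rw [if_pos rfl, mul_one]
      · intro k _ hk
        rw [if_neg (Ne.symm hk), mul_zero]
      · intro hi
        exact absurd (mem_range.mpr i.isLt) hi
    rw [← h2, h0, Polynomial.coeff_zero]
  have h3 : P.natDegree ≤ n := by
    rw [hP]
    apply Polynomial.natDegree_sum_le_of_forall_le
    intro k hk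
    exact (Polynomial.natDegree_C_mul_X_pow_le _ _).trans (mem_range.mp hk).le
  have h4 : ∀ lam : ℕ, P.eval (lam : ℂ) = ∑ v, wv n lam (θ v) * c v := by
    intro lam
    rw [hP, Polynomial.eval_finsetSum]
    simp only [Polynomial.eval_mul, Polynomial.eval_C, Polynomial.eval_pow, Polynomial.eval_X]
    unfold wv
    simp only [Finset.sum_mul]
    rw [Finset.sum_comm]
    apply Finset.sum_congr rfl
    intro v _
    apply Finset.sum_congr rfl
    intro k _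
    ring
  have h5 : ((range M).filter fun lam => ∑ v, wv n lam (θ v) * c v = 0).card ≤
      P.roots.toFinset.card := by
    apply Finset.card_le_card_of_injOn (fun lam : ℕ => (lam : ℂ))
    · intro lam hlam
      have h6 := (mem_filter.mp hlam).2
      have h7 : (lam : ℂ) ∈ P.roots.toFinset := by
        rw [Multiset.mem_toFinset, Polynomial.mem_roots h1, Polynomial.IsRoot, h4]
        exact h6
      exact h7
    · intro a _ b _ hab
      exact Nat.cast_injective hab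
  exact h5.trans ((Multiset.toFinset_card_le _).trans ((Polynomial.card_roots' P).trans h3))

/-- change of the index -/
private theorem lam_idx (n : ℕ) (w : Fin n → ℂ) (g : Fin n → ℂ) (τ : Equiv.Perm (Fin n)) :
    ∑ u, w (τ u) * g u = ∑ v, w v * g (τ⁻¹ v) := by
  rw [← Equiv.sum_comp τ (fun v => w v * g (τ⁻¹ v))]
  apply Finset.sum_congr rfl
  intro u _
  rw [show τ⁻¹ (τ u) = u from Equiv.symm_apply_apply τ u]

theorem lamX (n : ℕ) : ∀ (θ gam : Fin n → ℂ), Function.Injective θ →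
    Function.Injective gam → ∃ lam ≤ (n.factorial * n.factorial + n.factorial) * n,
      (Function.Injective fun τ : Equiv.Perm (Fin n) => ∑ u, wv n lam (θ (τ u)) * gam u) ∧
      ∀ τ : Equiv.Perm (Fin n), τ ≠ 1 →
        ∑ u, wv n lam (θ (τ u)) * θ u ≠ ∑ u, wv n lam (θ u) * θ u := by
  classical
  obtain ⟨Λ, hΛ⟩ : ∃ Λ : ℕ, Λ = (Fintype.card (Equiv.Perm (Fin n) × Equiv.Perm (Fin n)) +
      Fintype.card (Equiv.Perm (Fin n))) * n := ⟨_, rfl⟩
  have hΛe : (n.factorial * n.factorial + n.factorial) * n = Λ := by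
    rw [hΛ, Fintype.card_prod, Fintype.card_perm, Fintype.card_fin]
  rw [hΛe]
  intro θ gam hθ hgam
  obtain ⟨B1, hB1⟩ : ∃ B1 : Finset (Equiv.Perm (Fin n) × Equiv.Perm (Fin n)), B1 =
      univ.filter fun q => q.1 ≠ q.2 := ⟨_, rfl⟩
  obtain ⟨B2, hB2⟩ : ∃ B2 : Finset (Equiv.Perm (Fin n)), B2 = univ.filter fun τ => τ ≠ 1 :=
    ⟨_, rfl⟩
  obtain ⟨U1, hU1⟩ : ∃ U1 : Finset ℕ, U1 = B1.biUnion fun q => (range (Λ + 1)).filter fun lam =>
      ∑ v, wv n lam (θ v) * (gam (q.1⁻¹ v) - gam (q.2⁻¹ v)) = 0 := ⟨_, rfl⟩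
  obtain ⟨U2, hU2⟩ : ∃ U2 : Finset ℕ, U2 = B2.biUnion fun τ => (range (Λ + 1)).filter fun lam =>
      ∑ v, wv n lam (θ v) * (θ (τ⁻¹ v) - θ v) = 0 := ⟨_, rfl⟩
  have h1 : U1.card ≤ Fintype.card (Equiv.Perm (Fin n) × Equiv.Perm (Fin n)) * n := by
    rw [hU1]
    refine (Finset.card_biUnion_le_card_mul _ _ n ?_).trans
      (Nat.mul_le_mul_right n (Finset.card_le_univ _))
    intro q hq
    apply lam_card n θ _ hθ
    intro h0
    rw [hB1, mem_filter] at hq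
    apply hq.2
    have h2 : q.1⁻¹ = q.2⁻¹ := by
      apply Equiv.ext
      intro v
      apply hgam
      have h3 := congrFun h0 v
      exact sub_eq_zero.mp h3
    exact inv_injective h2
  have h2 : U2.card ≤ Fintype.card (Equiv.Perm (Fin n)) * n := by
    rw [hU2]
    refine (Finset.card_biUnion_le_card_mul _ _ n ?_).trans
      (Nat.mul_le_mul_right n (Finset.card_le_univ _))
    intro τ hτ
    apply lam_card n θ _ hθ
    intro h0
    rw [hB2, mem_filter] at hτ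
    apply hτ.2
    have h2 : τ⁻¹ = 1 := by
      apply Equiv.ext
      intro v
      apply hθ
      have h3 := congrFun h0 v
      exact sub_eq_zero.mp h3
    exact inv_eq_one.mp h2
  obtain ⟨lam, hl1, hl2⟩ : ∃ lam ∈ range (Λ + 1), lam ∉ U1 ∪ U2 := by
    by_contra hcon
    push Not at hcon
    have h3 : (range (Λ + 1)).card ≤ (U1 ∪ U2).card := Finset.card_le_card hcon
    have h4 := Finset.card_union_le U1 U2
    rw [card_range] at h3
    have h5 : Λ = Fintype.card (Equiv.Perm (Fin n) × Equiv.Perm (Fin n)) * n +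
      Fintype.card (Equiv.Perm (Fin n)) * n := by rw [hΛ, add_mul]
    omega
  rw [mem_union, not_or] at hl2
  refine ⟨lam, by have := mem_range.mp hl1; omega, ?_, ?_⟩
  · intro τ τ' hττ
    by_contra hne
    apply hl2.1
    rw [hU1, mem_biUnion]
    refine ⟨(τ, τ'), by rw [hB1, mem_filter]; exact ⟨mem_univ _, hne⟩, ?_⟩
    rw [mem_filter]
    refine ⟨hl1, ?_⟩
    have h3 : ∑ u, wv n lam (θ (τ u)) * gam u = ∑ u, wv n lam (θ (τ' u)) * gam u := hττ
    rw [lam_idx n (fun v => wv n lam (θ v)) gam τ, lam_idx n (fun v => wv n lam (θ v)) gam τ'] at h3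
    simp only [mul_sub, Finset.sum_sub_distrib]
    exact sub_eq_zero.mpr h3
  · intro τ hτ h3
    apply hl2.2
    rw [hU2, mem_biUnion]
    refine ⟨τ, by rw [hB2, mem_filter]; exact ⟨mem_univ _, hτ⟩, ?_⟩
    rw [mem_filter]
    refine ⟨hl1, ?_⟩
    rw [lam_idx n (fun v => wv n lam (θ v)) θ τ] at h3
    simp only [mul_sub, Finset.sum_sub_distrib]
    exact sub_eq_zero.mpr h3


/-- the bound of the weights -/
def LV (n m : ℕ) : ℕ := (n.factorial * n.factorial + n.factorial) * n +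
  (m * n.factorial) * (m * n.factorial)

theorem lmuX (n m : ℕ) (hm : 1 ≤ m) : ∀ (g : ℤ[X][X]) (pd : PData g n)
    (θ : Fin n → ℂ) (a : ℕ) (T : ℂ), T ≠ 0 → pd.R * ‖T‖ < 1 → Function.Injective θ →
    (∀ u, θ u = (a : ℂ) ^ m * evz T (pd.x u)) → ∃ lam ≤ LV n m, ∃ mu ≤ LV n m,
      Function.Injective (ZV pd.e m pd.q mu (fun u => wv n lam (θ u)) pd.x) ∧
      ∀ p : Fin m × Equiv.Perm (Fin n), p ≠ (⟨0, hm⟩, 1) →
        evz T (ZV pd.e m pd.q mu (fun u => wv n lam (θ u)) pd.x p) ≠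
        evz T (ZV pd.e m pd.q mu (fun u => wv n lam (θ u)) pd.x (⟨0, hm⟩, 1)) := by
  classical
  obtain ⟨Λ0, hΛ0d⟩ : ∃ Λ0, Λ0 = (n.factorial * n.factorial + n.factorial) * n := ⟨_, rfl⟩
  have hΛ0 := lamX n
  rw [← hΛ0d] at hΛ0
  obtain ⟨N, hN⟩ : ∃ N, N = Fintype.card {pp : (Fin m × Equiv.Perm (Fin n)) ×
      (Fin m × Equiv.Perm (Fin n)) // pp.1.1 ≠ pp.2.1} := ⟨_, rfl⟩
  have hNle : N ≤ (m * n.factorial) * (m * n.factorial) := by
    rw [hN]
    refine (Fintype.card_subtype_le _).trans (le_of_eq ?_)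
    rw [Fintype.card_prod, Fintype.card_prod, Fintype.card_perm, Fintype.card_fin,
      Fintype.card_fin]
  have hLV : Λ0 + N ≤ LV n m := by
    unfold LV
    rw [hΛ0d]
    exact Nat.add_le_add_left hNle _
  intro g pd θ a T hT hRT hθinj hθ
  obtain ⟨lam, hlam, hinj, -⟩ := hΛ0 θ θ hθinj hθinj
  obtain ⟨W, hW⟩ : ∃ W : Fin n → ℂ, W = fun u => wv n lam (θ u) := ⟨_, rfl⟩
  have he1 : 1 ≤ pd.e := pd.e_pos
  have hq1 : 1 ≤ pd.q := pd.q_pos
  have hem1 : 1 ≤ pd.e * m := Nat.mul_pos he1 hm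
  obtain ⟨e, hed⟩ : ∃ e, e = pd.e := ⟨_, rfl⟩
  obtain ⟨q, hqd⟩ : ∃ q, q = pd.q := ⟨_, rfl⟩
  rw [← hed] at he1 hem1
  rw [← hqd] at hq1
  obtain ⟨ω, hω⟩ : ∃ ω, ω = rou (e * m) := ⟨_, rfl⟩
  have hprim : IsPrimitiveRoot ω (e * m) := by
    rw [hω]
    exact rou_prim hem1
  have hω0 : ω ≠ 0 := hprim.ne_zero (by omega)
  have hprime : IsPrimitiveRoot (ω ^ e) m := hprim.pow (by omega) rfl
  have hqT : (q : ℂ) * T ≠ 0 := by
    refine mul_ne_zero ?_ hT
    have : q ≠ 0 := by omega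
    exact_mod_cast this
  -- the rotations give different values of the extra term
  have hβ0 : ∀ i i' : Fin m, i ≠ i' →
      ((q : ℂ) * (ω ^ (i : ℕ) * T)) ^ (e * (m - 1)) -
        ((q : ℂ) * (ω ^ (i' : ℕ) * T)) ^ (e * (m - 1)) ≠ 0 := by
    intro i i' hii h
    have h1 : ∀ i : Fin m, ((q : ℂ) * (ω ^ (i : ℕ) * T)) ^ (e * (m - 1)) =
        ((q : ℂ) * T) ^ (e * (m - 1)) * (ω ^ e) ^ ((i : ℕ) * (m - 1)) := by
      intro i
      rw [show (q : ℂ) * (ω ^ (i : ℕ) * T) = (q : ℂ) * T * ω ^ (i : ℕ) by ring, mul_pow]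
      congr 1
      rw [← pow_mul, ← pow_mul]
      congr 1
      ring
    rw [h1, h1, ← mul_sub] at h
    have h2 := (mul_eq_zero.1 h).resolve_left (pow_ne_zero _ hqT)
    have h3 : (ω ^ e) ^ ((i : ℕ) * (m - 1)) = (ω ^ e) ^ ((i' : ℕ) * (m - 1)) := sub_eq_zero.1 h2
    have hm1 : (ω ^ e) ^ m = 1 := hprime.pow_eq_one
    have h4 : ∀ i i' : ℕ, (ω ^ e) ^ (i * (m - 1)) * (ω ^ e) ^ (i + i') = (ω ^ e) ^ i' := by
      intro i i'
      rw [← pow_add, show i * (m - 1) + (i + i') = m * i + i' by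
        obtain ⟨k, rfl⟩ : ∃ k, m = k + 1 := ⟨m - 1, by omega⟩
        rw [Nat.add_sub_cancel]
        ring, pow_add, pow_mul, hm1, one_pow, one_mul]
    have h5 : (ω ^ e) ^ (i' : ℕ) = (ω ^ e) ^ (i : ℕ) := by
      rw [← h4 i i', h3, add_comm (i : ℕ) (i' : ℕ), h4]
    exact hii (Fin.ext (hprime.pow_inj i.2 i'.2 h5.symm))
  obtain ⟨Sf, hSf⟩ : ∃ Sf : Fin m × Equiv.Perm (Fin n) → ℂ, Sf = fun p =>
    ∑ u, W (p.2 u) * evz (ω ^ (p.1 : ℕ) * T) (pd.x u) := ⟨_, rfl⟩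
  obtain ⟨mu, hmu, hmun⟩ := exists_mu
    (ι := {pp : (Fin m × Equiv.Perm (Fin n)) × (Fin m × Equiv.Perm (Fin n)) // pp.1.1 ≠ pp.2.1})
    (fun pp => Sf pp.1.1 - Sf pp.1.2)
    (fun pp => ((q : ℂ) * (ω ^ (pp.1.1.1 : ℕ) * T)) ^ (e * (m - 1)) -
        ((q : ℂ) * (ω ^ (pp.1.2.1 : ℕ) * T)) ^ (e * (m - 1)))
    (fun pp => hβ0 _ _ pp.2)
  rw [← hN] at hmu
  have hR0 : 0 ≤ pd.R := by linarith [pd.R_ge]
  have hval : ∀ p, evz T (ZV e m q mu W pd.x p) =
      Sf p + (mu : ℂ) * ((q : ℂ) * (ω ^ (p.1 : ℕ) * T)) ^ (e * (m - 1)) := by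
    intro p
    rw [zv_ev he1 hm W pd.x hR0 pd.growth p hRT, hSf, hω]
  have hne : ∀ p p' : Fin m × Equiv.Perm (Fin n), p.1 ≠ p'.1 →
      evz T (ZV e m q mu W pd.x p) ≠ evz T (ZV e m q mu W pd.x p') := by
    intro p p' hpp h
    rw [hval, hval] at h
    apply hmun ⟨(p, p'), hpp⟩
    show Sf p - Sf p' + (mu : ℂ) * (((q : ℂ) * (ω ^ (p.1 : ℕ) * T)) ^ (e * (m - 1)) -
        ((q : ℂ) * (ω ^ (p'.1 : ℕ) * T)) ^ (e * (m - 1))) = 0
    linear_combination h
  -- equal values of the unrotated series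
  have hS0 : ∀ τ τ' : Equiv.Perm (Fin n), Sf (⟨0, hm⟩, τ) = Sf (⟨0, hm⟩, τ') → τ = τ' := by
    intro τ τ' h
    apply hinj
    show ∑ u, wv n lam (θ (τ u)) * θ u = ∑ u, wv n lam (θ (τ' u)) * θ u
    have h1 : ∀ τ : Equiv.Perm (Fin n), ∑ u, wv n lam (θ (τ u)) * θ u =
        (a : ℂ) ^ m * Sf (⟨0, hm⟩, τ) := by
      intro τ
      rw [hSf]
      show _ = (a : ℂ) ^ m * ∑ u, W (τ u) * evz (ω ^ (((⟨0, hm⟩ : Fin m) : ℕ)) * T) (pd.x u)
      rw [mul_sum]
      refine sum_congr rfl fun u _ => ?_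
      have h2 : ω ^ (((⟨0, hm⟩ : Fin m) : ℕ)) * T = T := by
        show ω ^ 0 * T = T
        rw [pow_zero, one_mul]
      rw [h2, hW, hθ u]
      ring
    rw [h1, h1, h]
  refine ⟨lam, by omega, mu, by omega, ?_⟩
  rw [← hW, ← hed, ← hqd]
  refine ⟨?_, ?_⟩
  · intro p p' h
    have h1 : p.1 = p'.1 := by
      by_contra hc
      exact hne p p' hc (by rw [h])
    have h2 : VV e m q mu W pd.x p.2 = VV e m q mu W pd.x p'.2 := by
      have h3 : PowerSeries.rescale (rou (e * m) ^ (p.1 : ℕ)) (VV e m q mu W pd.x p.2) =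
          PowerSeries.rescale (rou (e * m) ^ (p'.1 : ℕ)) (VV e m q mu W pd.x p'.2) := h
      rw [← h1, ← hω] at h3
      ext k
      have h4 := congrArg (PowerSeries.coeff k) h3
      rw [PowerSeries.coeff_rescale, PowerSeries.coeff_rescale] at h4
      exact mul_left_cancel₀ (pow_ne_zero k (pow_ne_zero _ hω0)) h4
    have h5 : ZV e m q mu W pd.x (⟨0, hm⟩, p.2) = ZV e m q mu W pd.x (⟨0, hm⟩, p'.2) := by
      unfold ZV
      show PowerSeries.rescale _ (VV e m q mu W pd.x p.2) =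
        PowerSeries.rescale _ (VV e m q mu W pd.x p'.2)
      rw [h2]
    have h6 : evz T (ZV e m q mu W pd.x (⟨0, hm⟩, p.2)) =
        evz T (ZV e m q mu W pd.x (⟨0, hm⟩, p'.2)) := by rw [h5]
    rw [hval, hval] at h6
    exact Prod.ext h1 (hS0 _ _ (add_right_cancel h6))
  · intro p hp h
    by_cases h1 : p.1 = ⟨0, hm⟩
    · obtain ⟨i, τ⟩ := p
      simp only at h1
      subst h1
      rw [hval, hval] at h
      have h2 := hS0 _ _ (add_right_cancel h)
      apply hp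
      rw [h2]
    · exact hne p _ h1 h

end Pool.Agent.H37.XP
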