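import Pool.Agent.H4.AR.Step

/-! # Roth's lemma with an explicit constant (helper37)

Copy of `roth_step` (`Pool/Agent/H4/AR/Step.lean`) with the constants as parameters:
`RothC 0 del 1`, `RothC 1 del (del^2/192)`, `RothC 2 del (del^4/3145728)` for `0 < del ≤ 1`. -/

namespace H4AR

open MvPolynomial

/-- Roth's lemma in `m` variables, index `del`, with the constant `c` -/
def RothC (m : ℕ) (del c : ℝ) : Prop :=
  ∀ (d : Fin m → ℕ) (r : Fin m → ℚ) (f : MvPolynomial (Fin m) ℤ) (D : ℝ), 1 ≤ D →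
    (∀ j, 1 ≤ d j) → (∀ j, (d j : ℝ) ≤ D) → (∀ i j, i < j → (d i : ℝ) ≤ c * d j) → f ≠ 0 →
    (∀ j, f.degreeOf j ≤ d j) →
    (∀ j, Real.log (l1 f) + D ≤ c * ((d j : ℝ) * Real.log (ht (r j)))) →
    ∃ e : Fin m →₀ ℕ, wt d e ≤ del ∧ (sh r (toQ f)).coeff e ≠ 0

private theorem rtx_ht_pos (q : ℚ) : 0 < ht q := by
  unfold ht
  refine lt_max_of_lt_right ?_
  exact_mod_cast q.den_pos

theorem rothC_step (m : ℕ) {del1 c c' : ℝ} (hd0 : 0 < del1) (hd1' : del1 ≤ 1) (hc0 : 0 < c)
    (hc'1 : c' ≤ 1) (hcA : c * ((m : ℝ) + 3) ≤ c') (hcB : c * ((m : ℝ) + 3) ≤ del1 ^ 2 / 64)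
    (ih' : RothC m (del1 ^ 2 / 64) c') : RothC (m + 1) del1 c := by
  have hm0 : (0 : ℝ) ≤ m := Nat.cast_nonneg m
  have hcc' : c ≤ c' := by nlinarith
  have hc1 : c ≤ 1 := hcc'.trans hc'1
  have hcd4 : c ≤ del1 / 4 := by nlinarith
  intro d r f D hD hd1 hdD hsep hf hdeg hlog
  have hL : 1 ≤ l1 f := one_le_l1 hf
  have hlogL : 0 ≤ Real.log (l1 f) := Real.log_nonneg hL
  have hdh : ∀ j, 0 < (d j : ℝ) * Real.log (ht (r j)) := by
    intro j
    have h1 := hlog j
    by_contra h2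
    push Not at h2
    have h3 : c * ((d j : ℝ) * Real.log (ht (r j))) ≤ 0 := mul_nonpos_of_nonneg_of_nonpos hc0.le h2
    linarith
  obtain ⟨s, g, h, hs1, hs2, hgli, hhli, hdec, hgl1, hgdeg⟩ := decomp f hf (d 0) (hdeg 0)
  obtain ⟨Dm, hDm, hdetg⟩ := wronskian (fun i => toQ (g i)) hgli
  obtain ⟨nu, hnu, hinj, hdeth⟩ := wronskian_one h hhli
  obtain ⟨G, hGdef⟩ : ∃ G, G = (Matrix.of fun a i : Fin s => hs (Dm a) (g i)).det := ⟨_, rfl⟩
  obtain ⟨W, hWdef⟩ : ∃ W, W = (Matrix.of fun b i : Fin s =>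
    hs (Finsupp.single 0 (nu b)) (h i)).det := ⟨_, rfl⟩
  obtain ⟨F, hFdef⟩ : ∃ F, F = (Matrix.of fun a b : Fin s =>
    hs (Finsupp.cons (nu b) (Dm a)) f).det := ⟨_, rfl⟩
  have hGQ : toQ G = (Matrix.of fun mu i : Fin s => hs (Dm mu) (toQ (g i))).det := by
    rw [hGdef]
    unfold toQ
    rw [RingHom.map_det]
    congr 1
    ext1 a b
    rw [RingHom.mapMatrix_apply, Matrix.map_apply, Matrix.of_apply, Matrix.of_apply, hs_map]
  have hG0 : G ≠ 0 := by
    intro h1
    apply hdetg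
    rw [← hGQ, h1]
    unfold toQ
    rw [map_zero]
  have hW0 : W ≠ 0 := by rw [hWdef]; exact hdeth
  have hF : toQ F = rename (fun _ : Fin 1 => (0 : Fin (m + 1))) W * rename Fin.succ (toQ G) := by
    rw [hFdef, hWdef, hGdef]
    exact det_factor f g h hdec Dm nu
  have hs1' : (1 : ℝ) ≤ s := by exact_mod_cast hs1
  have hsD : (s : ℝ) ≤ D + 1 := by
    have h1 : (s : ℝ) ≤ (d 0 : ℝ) + 1 := by exact_mod_cast hs2
    have h2 := hdD 0
    linarith
  have hlG : Real.log (l1 G) ≤ s * (((m : ℝ) + 1) * D + Real.log (l1 f)) := by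
    rw [hGdef]
    exact log_l1_det_le _ (fun j => d j.succ) (l1 f) D hL hD hs1 hsD (fun j => hdD j.succ)
      (fun a b => ⟨Dm a, g b, rfl, hgl1 b, fun j => (hgdeg b j).trans (hdeg j.succ)⟩)
  have hlF : Real.log (l1 F) ≤ s * (((m : ℝ) + 2) * D + Real.log (l1 f)) := by
    have h1 : Real.log (l1 F) ≤ s * ((((m + 1 : ℕ) : ℝ) + 1) * D + Real.log (l1 f)) := by
      rw [hFdef]
      exact log_l1_det_le _ d (l1 f) D hL hD hs1 hsD hdD
        (fun a b => ⟨Finsupp.cons (nu b) (Dm a), f, rfl, le_rfl, hdeg⟩)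
    push_cast at h1
    have h2 : (m : ℝ) + 1 + 1 = m + 2 := by ring
    rwa [h2] at h1
  have hdegG : ∀ j, G.degreeOf j ≤ s * d j.succ := by
    intro j
    rw [hGdef]
    exact degreeOf_det_hs_le _ (fun j => d j.succ)
      (fun a b => ⟨Dm a, g b, rfl, fun j => (hgdeg b j).trans (hdeg j.succ)⟩) j
  have hcm : (m + 2) * c ≤ c' := by nlinarith
  have hcm2 : (m + 2) * c ≤ del1 ^ 2 / 64 := by nlinarith
  obtain ⟨e, he1, he2⟩ := ih' (fun j => s * d j.succ) (fun j => r j.succ) G (s * D)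
    (by nlinarith) (fun j => Nat.mul_pos hs1 (hd1 j.succ))
    (fun j => by
      push_cast
      exact mul_le_mul_of_nonneg_left (hdD j.succ) (by linarith))
    (fun i j hij => by
      have h1 := hsep i.succ j.succ (Fin.succ_lt_succ_iff.mpr hij)
      have h2 : (0 : ℝ) ≤ d j.succ := Nat.cast_nonneg _
      push_cast
      have h3 : (d i.succ : ℝ) ≤ c' * d j.succ := h1.trans (mul_le_mul_of_nonneg_right hcc' h2)
      calc (s : ℝ) * d i.succ ≤ s * (c' * d j.succ) := mul_le_mul_of_nonneg_left h3 (by linarith)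
        _ = c' * (s * d j.succ) := by ring)
    hG0 hdegG
    (fun j => by
      have h1 := hlog j.succ
      have h2 := hdh j.succ
      push_cast
      have h3 : Real.log (l1 G) + s * D ≤ s * (((m : ℝ) + 2) * (Real.log (l1 f) + D)) := by
        have h4 : s * (((m : ℝ) + 1) * D + Real.log (l1 f)) + s * D =
          s * (((m : ℝ) + 2) * (Real.log (l1 f) + D)) - s * (((m : ℝ) + 1) * Real.log (l1 f)) := by
          ring
        have h5 : 0 ≤ s * (((m : ℝ) + 1) * Real.log (l1 f)) := by positivity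
        linarith
      have h6 : ((m : ℝ) + 2) * (Real.log (l1 f) + D) ≤
          ((m : ℝ) + 2) * (c * ((d j.succ : ℝ) * Real.log (ht (r j.succ)))) :=
        mul_le_mul_of_nonneg_left h1 (by positivity)
      have h7 : ((m : ℝ) + 2) * (c * ((d j.succ : ℝ) * Real.log (ht (r j.succ)))) ≤
          c' * ((d j.succ : ℝ) * Real.log (ht (r j.succ))) := by
        rw [← mul_assoc]
        exact mul_le_mul_of_nonneg_right hcm h2.le
      calc Real.log (l1 G) + s * D ≤ s * (((m : ℝ) + 2) * (Real.log (l1 f) + D)) := h3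
        _ ≤ s * (c' * ((d j.succ : ℝ) * Real.log (ht (r j.succ)))) :=
          mul_le_mul_of_nonneg_left (h6.trans h7) (by linarith)
        _ = c' * (s * d j.succ * Real.log (ht (r j.succ))) := by ring)
  obtain ⟨a, ha1, ha2⟩ := coeff_order F W (toQ G) hF hW0 r e he2
  -- the order in the first variable
  have hd0pos : (0 : ℝ) < d 0 := by exact_mod_cast hd1 0
  have hh0 : 0 < Real.log (ht (r 0)) := (pos_iff_pos_of_mul_pos (hdh 0)).mp hd0pos
  have hal : (a : ℝ) * Real.log (ht (r 0)) ≤ Real.log (l1 F) := by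
    rw [← Real.log_pow]
    exact Real.log_le_log (pow_pos (rtx_ht_pos _) a) ha2
  have ha3 : (a : ℝ) ≤ s * ((m + 2) * c) * d 0 := by
    have h1 := hlog 0
    have h3 : Real.log (l1 F) ≤ s * (((m : ℝ) + 2) * (Real.log (l1 f) + D)) := by
      have h4 : s * (((m : ℝ) + 2) * D + Real.log (l1 f)) =
        s * (((m : ℝ) + 2) * (Real.log (l1 f) + D)) - s * (((m : ℝ) + 1) * Real.log (l1 f)) := by
        ring
      have h5 : 0 ≤ s * (((m : ℝ) + 1) * Real.log (l1 f)) := by positivity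
      linarith
    have h6 : s * (((m : ℝ) + 2) * (Real.log (l1 f) + D)) ≤
        s * (((m : ℝ) + 2) * (c * ((d 0 : ℝ) * Real.log (ht (r 0))))) :=
      mul_le_mul_of_nonneg_left (mul_le_mul_of_nonneg_left h1 (by positivity)) (by linarith)
    have h7 : (a : ℝ) * Real.log (ht (r 0)) ≤
        (s * ((m + 2) * c) * d 0) * Real.log (ht (r 0)) := by
      calc (a : ℝ) * Real.log (ht (r 0)) ≤
          s * (((m : ℝ) + 2) * (c * ((d 0 : ℝ) * Real.log (ht (r 0))))) :=
            hal.trans (h3.trans h6)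
        _ = _ := by ring
    exact le_of_mul_le_mul_right h7 hh0
  have hwt : wt d (Finsupp.cons a e) ≤ s * del1 ^ 2 / 32 := by
    have h1 : wt d (Finsupp.cons a e) = (a : ℝ) / d 0 + ∑ j : Fin m, (e j : ℝ) / d j.succ := by
      unfold wt
      rw [Fin.sum_univ_succ, Finsupp.cons_zero]
      simp only [Finsupp.cons_succ]
    have h2 : ∑ j : Fin m, (e j : ℝ) / d j.succ = s * wt (fun j => s * d j.succ) e := by
      unfold wt
      rw [Finset.mul_sum]
      refine Finset.sum_congr rfl fun j _ => ?_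
      have h3 : (d j.succ : ℝ) ≠ 0 := by
        have := hd1 j.succ
        positivity
      have h4 : (s : ℝ) ≠ 0 := by positivity
      push_cast
      field_simp
    have h3 : (a : ℝ) / d 0 ≤ s * ((m + 2) * c) := by
      rw [div_le_iff₀ hd0pos]
      exact ha3
    have h4 : s * ((m + 2) * c) ≤ s * (del1 ^ 2 / 64) :=
      mul_le_mul_of_nonneg_left hcm2 (by linarith)
    have h5 : s * wt (fun j => s * d j.succ) e ≤ s * (del1 ^ 2 / 64) :=
      mul_le_mul_of_nonneg_left he1 (by linarith)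
    rw [h1, h2]
    linarith
  -- conclusion
  by_contra hcon
  push Not at hcon
  have hIx : Ix d r del1 (toQ f) := by
    intro e' he'
    by_contra h1
    push Not at h1
    exact he' (hcon e' h1.le)
  have hIF := Ix_det_hs d r f del1 c hc0.le hd1
    (fun j => hsep 0 j.succ (Fin.succ_pos j)) hs1 hs2 hIx Dm hDm nu
  rw [← hFdef] at hIF
  have h1 := hIF (Finsupp.cons a e) ha1
  have h2 := theta_sum_inj (d 0) s del1 c (hd1 0) hs1 hs2 hd0 hd1' hc0.le hcd4 nu hnu hinj
  have h3 : 0 < del1 ^ 2 * s := by positivity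
  linarith



theorem rothC_zero {del : ℝ} (hdel : 0 ≤ del) : RothC 0 del 1 := by
  intro d r f D _ _ _ _ hf _ _
  have h1 : sh r (toQ f) ≠ 0 := by
    refine sh_ne_zero r ?_
    intro h
    apply hf
    exact MvPolynomial.map_injective (Int.castRingHom ℚ) Int.cast_injective
      (h.trans (map_zero _).symm)
  obtain ⟨e, he⟩ := MvPolynomial.ne_zero_iff.1 h1
  refine ⟨e, ?_, he⟩
  unfold wt
  rw [Finset.univ_eq_empty, Finset.sum_empty]
  exact hdel

theorem rothC_one {del : ℝ} (h0 : 0 < del) (h1 : del ≤ 1) : RothC 1 del (del ^ 2 / 192) := by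
  have h2 : del ^ 2 ≤ 1 := pow_le_one₀ h0.le h1
  refine rothC_step 0 (c' := 1) h0 h1 (by positivity) le_rfl ?_ ?_
    (rothC_zero (by positivity))
  · push_cast
    linarith
  · push_cast
    linarith

/-- Roth's lemma for two points -/
theorem rothC_two {del : ℝ} (h0 : 0 < del) (h1 : del ≤ 1) :
    RothC 2 del (del ^ 4 / 3145728) := by
  have h2 : del ^ 2 ≤ 1 := pow_le_one₀ h0.le h1
  have h4 : del ^ 4 ≤ del ^ 2 := pow_le_pow_of_le_one h0.le h1 (by norm_num)
  have h5 : 0 < del ^ 2 := by positivity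
  have h3 := rothC_one (del := del ^ 2 / 64) (by positivity) (by linarith)
  refine rothC_step 1 (c' := (del ^ 2 / 64) ^ 2 / 192) h0 h1 (by positivity) ?_ ?_ ?_ h3
  · have : (del ^ 2 / 64) ^ 2 ≤ 1 := pow_le_one₀ (by positivity) (by linarith)
    linarith
  · push_cast
    have e : (del ^ 2 / 64) ^ 2 / 192 = del ^ 4 / 786432 := by ring
    rw [e]
    linarith
  · push_cast
    linarith

end H4AR
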