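import Pool.Agent.H97.TR.Defs
import Pool.Agent.H37.XP.FMX
import Pool.Agent.H37.XP.LMX
import Pool.Agent.H37.XP.CRX
import Pool.Agent.H37.XP.QFX

/-! # Explicit constants: interface of the machine (helper37)

`far2`: `far_q` for two curves with explicit constants: if `n!, κ, 1/γ, 1/ϱ_v ≤ N` then `R = N^kE`, `c = N^kE` will do. -/

set_option autoImplicit false

namespace Pool.Agent.H37.XP

open Finset Polynomial Pool.Agent.H72.ES Pool.Agent.H87.SA2 Pool.Agent.H8.AW Pool.Agent.H52.AC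
  Pool.Agent.H97.NW Pool.Agent.H98.MR Pool.Agent.H97.TR

/-- the exponent of the machine -/
def kE : ℕ := 200

/-- the machine for two curves with rational points, explicit constants -/
def Far2 (n κ N : ℕ) (γ : ℝ) (ϱ : Fin 2 → ℝ) : Prop :=
    ∀ (P : Fin 2 → Ptr n) (PP : Finset (∀ v, Fin (P v).d)), StbR P PP →
      (fun v => (P v).i) ∈ PP →
      (1 + γ) * (((2 : ℕ) : ℝ) ^ 2 * PP.card) ≤ ((2 : ℕ).factorial : ℝ) *
        ∏ v, (ϱ v * ((P v).d : ℝ)) →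
      (∀ v, ϱ v * (P v).hh ≤ (P v).ell) → (∀ v, Rlr κ (N ^ kE) (P v)) →
      ¬ ∀ i j : Fin 2, i < j → (N : ℝ) ^ kE * (P j).hh ≤ (P i).hh

theorem far2 (n κ N : ℕ) (hn : 4 ≤ n) (hN : n.factorial ≤ N) (hκ : κ ≤ N) (γ : ℝ)
    (hγ : 1 ≤ γ * N) (ϱ : Fin 2 → ℝ) (hϱ : ∀ v, 1 ≤ ϱ v * N) (hϱ1 : ∀ v, ϱ v ≤ 1) :
    Far2 n κ N γ ϱ := by
  have h6n : 6 * n ≤ N := by
    refine le_trans ?_ hN
    obtain ⟨k, rfl⟩ : ∃ k, n = k + 4 := ⟨n - 4, by omega⟩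
    have e1 : (k + 4).factorial = (k + 4) * (k + 3).factorial := Nat.factorial_succ (k + 3)
    rw [e1, mul_comm 6]
    refine Nat.mul_le_mul_left _ ?_
    calc 6 = (3 : ℕ).factorial := rfl
      _ ≤ (k + 3).factorial := Nat.factorial_le (by omega)
  obtain ⟨X, hX⟩ : ∃ X : ℝ, X = N := ⟨_, rfl⟩
  have hn4 : (4 : ℝ) ≤ n := by exact_mod_cast hn
  have hnX : 6 * (n : ℝ) ≤ X := by
    rw [hX]
    exact_mod_cast h6n
  have hX24 : 24 ≤ X := by linarith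
  have hX0 : 0 < X := by linarith
  have hX1 : 1 ≤ X := by linarith
  have hfX : (n.factorial : ℝ) ≤ X := by
    rw [hX]
    exact_mod_cast hN
  have hf1 : (1 : ℝ) ≤ n.factorial := by exact_mod_cast Nat.factorial_pos n
  have hκX : (κ : ℝ) ≤ X := by
    rw [hX]
    exact_mod_cast hκ
  rw [← hX] at hγ
  have hϱ' : ∀ v, 1 ≤ ϱ v * X := fun v => by rw [hX]; exact hϱ v
  -- powers of X
  have hX2 : 24 * X ≤ X ^ 2 := by nlinarith
  have hX3 : 24 * X ^ 2 ≤ X ^ 3 := by nlinarith [sq_nonneg X]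
  have hX5 : (3145728 : ℝ) ≤ X ^ 5 := by
    calc (3145728 : ℝ) ≤ 24 ^ 5 := by norm_num
      _ ≤ X ^ 5 := pow_le_pow_left₀ (by norm_num) hX24 5
  obtain ⟨W, hW⟩ : ∃ W : ℝ, W = X ^ 200 := ⟨_, rfl⟩
  have hcW : ((N ^ kE : ℕ) : ℝ) = W := by
    rw [hW, hX]
    unfold kE
    push_cast
    rfl
  have hbig : ∀ (a : ℕ) (t : ℝ), a ≤ 160 → 1 ≤ t * X ^ a → X ^ 40 ≤ t * W := by
    intro a t ha ht
    have e1 : W = X ^ a * X ^ (200 - a) := by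
      rw [hW, ← pow_add]
      congr 1
      omega
    have e2 : X ^ 40 ≤ X ^ (200 - a) := pow_le_pow_right₀ hX1 (by omega)
    have e3 : 0 < X ^ (200 - a) := by positivity
    rw [e1, ← mul_assoc]
    exact e2.trans (le_mul_of_one_le_left e3.le ht)
  have hpw : ∀ a : ℕ, a ≤ 40 → X ^ a ≤ X ^ 40 := fun a ha => pow_le_pow_right₀ hX1 ha
  -- gamma
  obtain ⟨g, hg⟩ : ∃ g : ℝ, g = min γ 1 := ⟨_, rfl⟩
  have hgγ : g ≤ γ := by rw [hg]; exact min_le_left _ _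
  have hg1 : g ≤ 1 := by rw [hg]; exact min_le_right _ _
  have hgX : 1 ≤ g * X := by
    rw [hg, min_mul_of_nonneg _ _ hX0.le, one_mul]
    exact le_min hγ hX1
  have hg0 : 0 < g := by
    by_contra hcon
    have : g * X ≤ 0 := mul_nonpos_of_nonpos_of_nonneg (not_lt.1 hcon) hX0.le
    linarith
  -- eta
  obtain ⟨η, hη⟩ : ∃ η : ℝ, η = g / (4 * n + 5) := ⟨_, rfl⟩
  have hcnt : Pool.Agent.H26.TR.CntD 2 n g η := by
    rw [hη]
    exact Pool.Agent.H26.TR.cntD_two n (by omega) g hg0 hg1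
  have hη0 : 0 < η := hcnt.1
  have hη1 : η ≤ 1 := hcnt.le_one
  have hηX : 1 ≤ η * X ^ 2 := by
    have e1 : (4 * (n : ℝ) + 5) ≤ X := by linarith
    have e2 : 0 < 4 * (n : ℝ) + 5 := by linarith
    rw [hη, div_mul_eq_mul_div, le_div_iff₀ e2, one_mul]
    calc 4 * (n : ℝ) + 5 ≤ X := e1
      _ ≤ g * X * X := le_mul_of_one_le_left hX0.le hgX
      _ = g * X ^ 2 := by ring
  -- the derivative
  obtain ⟨E, hE⟩ : ∃ E : ℝ, E = (Pool.Agent.H98.MQ.Ew κ n : ℕ) := ⟨_, rfl⟩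
  have hE' : E = κ * (n + 1) + 2 * n := by
    rw [hE]
    unfold Pool.Agent.H98.MQ.Ew
    push_cast
    ring
  have hκ0 : (0 : ℝ) ≤ κ := Nat.cast_nonneg _
  have hE1 : 1 ≤ E := by
    rw [hE']
    nlinarith
  have hEX : E ≤ X ^ 2 := by
    rw [hE']
    have e1 : (κ : ℝ) * (n + 1) ≤ X * (n + 1) := mul_le_mul_of_nonneg_right hκX (by linarith)
    have e2 : X * (n + 1) + 2 * n ≤ X * (n + 2) := by nlinarith
    have e3 : X * ((n : ℝ) + 2) ≤ X * X := mul_le_mul_of_nonneg_left (by linarith) hX0.le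
    nlinarith
  -- del
  obtain ⟨del, hdel⟩ : ∃ del : ℝ, del = η / (5 * E) / (4 * (n : ℝ) ^ 2) := ⟨_, rfl⟩
  have hdel0 : 0 < del := by
    rw [hdel]
    positivity
  have hdelη : del ≤ η := by
    rw [hdel]
    refine (div_le_self (by positivity) (by nlinarith)).trans (div_le_self hη0.le (by linarith))
  have hdel1 : del ≤ 1 := hdelη.trans hη1
  have hdelX : 1 ≤ del * X ^ 6 := by
    rw [hdel, div_div, div_mul_eq_mul_div, le_div_iff₀ (by positivity), one_mul]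
    have e1 : 20 * (n : ℝ) ^ 2 ≤ X ^ 2 := by nlinarith
    calc 5 * E * (4 * (n : ℝ) ^ 2) = E * (20 * (n : ℝ) ^ 2) := by ring
      _ ≤ X ^ 2 * X ^ 2 := mul_le_mul hEX e1 (by positivity) (by positivity)
      _ ≤ (η * X ^ 2) * (X ^ 2 * X ^ 2) := le_mul_of_one_le_left (by positivity) hηX
      _ = η * X ^ 6 := by ring
  -- cr
  obtain ⟨cr, hcr⟩ : ∃ cr : ℝ, cr = del ^ 4 / 3145728 := ⟨_, rfl⟩
  have hcr0 : 0 < cr := by
    rw [hcr]
    positivity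
  have hcrη : cr ≤ η := by
    have e1 : del ^ 4 ≤ del := pow_le_of_le_one hdel0.le hdel1 (by norm_num)
    have e2 : cr ≤ del ^ 4 := by
      rw [hcr]
      exact div_le_self (by positivity) (by norm_num)
    linarith
  have hcrX : 1 ≤ cr * X ^ 29 := by
    rw [hcr, div_mul_eq_mul_div, le_div_iff₀ (by norm_num), one_mul]
    have e1 : 1 ≤ (del * X ^ 6) ^ 4 := one_le_pow₀ hdelX
    calc (3145728 : ℝ) ≤ X ^ 5 := hX5
      _ ≤ (del * X ^ 6) ^ 4 * X ^ 5 := le_mul_of_one_le_left (by positivity) e1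
      _ = del ^ 4 * X ^ 29 := by ring
  have hroth : H4AR.RothC 2 (η / (5 * (Pool.Agent.H98.MQ.Ew κ n : ℕ)) / (4 * (n : ℝ) ^ 2)) cr := by
    rw [← hE, ← hdel, hcr]
    exact H4AR.rothC_two hdel0 hdel1
  -- r0
  obtain ⟨r0, hr0⟩ : ∃ r0 : ℝ, r0 = 1 / X := ⟨_, rfl⟩
  have hr00 : 0 < r0 := by
    rw [hr0]
    positivity
  have hr01 : r0 ≤ 1 := by
    rw [hr0, div_le_one hX0]
    exact hX1
  have hr0X : r0 * X = 1 := by
    rw [hr0]
    field_simp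
  have hrϱ : ∀ v, r0 ≤ ϱ v := fun v => by
    rw [hr0, div_le_iff₀ hX0]
    exact hϱ' v
  have hϱ0 : ∀ v, 0 < ϱ v := fun v => hr00.trans_le (hrϱ v)
  have hcrr : 1 ≤ cr * r0 * X ^ 30 := by
    calc 1 ≤ cr * X ^ 29 := hcrX
      _ = cr * (r0 * X) * X ^ 29 := by rw [hr0X, mul_one]
      _ = cr * r0 * X ^ 30 := by ring
  -- del1
  obtain ⟨δ1, hδ1⟩ : ∃ δ1 : ℝ, δ1 = cr * r0 / 8 := ⟨_, rfl⟩
  have hδ10 : 0 < δ1 := by
    rw [hδ1]
    positivity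
  have hδa : δ1 ≤ η / 8 := by
    rw [hδ1]
    have : cr * r0 ≤ cr := mul_le_of_le_one_right hcr0.le hr01
    linarith
  have hδb : (n : ℝ) ^ 2 * δ1 ≤ cr * r0 * (n : ℝ) ^ 2 / 2 / 4 := by
    rw [hδ1]
    apply le_of_eq
    ring
  -- the thresholds
  have t1 : Pool.Agent.H98.MR.cR n ≤ N ^ kE := by
    have e1 : Pool.Agent.H98.MR.cR n ≤ N ^ 2 := by
      unfold Pool.Agent.H98.MR.cR
      nlinarith
    refine e1.trans (Nat.pow_le_pow_right (by omega) ?_)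
    unfold kE
    norm_num
  have hlogn : Real.log n ≤ X := by
    have := Real.log_le_self (show (0 : ℝ) ≤ n by positivity)
    linarith
  have hlogf : Real.log (n.factorial : ℝ) ≤ X := (Real.log_le_self (by positivity)).trans hfX
  have t2 : ((N ^ 2 : ℕ) : ℝ) * (4 + 2 * ((2 : ℕ) : ℝ) * Real.log n + 2 * ((2 : ℕ) : ℝ) +
      (2 * ((2 : ℕ) : ℝ) * Real.log (n.factorial : ℝ) +
      3 * ((n.factorial : ℝ) * ((((2 : ℕ) : ℝ) + 1) / r0 + ((2 : ℕ) : ℝ))))) ≤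
      δ1 / 2 * ((N ^ kE : ℕ) : ℝ) := by
    rw [hcW]
    have e0 : ((N ^ 2 : ℕ) : ℝ) = X ^ 2 := by
      rw [hX]
      push_cast
      rfl
    have e00 : (((2 : ℕ) : ℝ) + 1) / r0 = 3 * X := by
      rw [hr0]
      push_cast
      field_simp
      norm_num
    rw [e0, e00]
    push_cast
    have e1 : (n.factorial : ℝ) * (3 * X + 2) ≤ X * (3 * X + 2) :=
      mul_le_mul_of_nonneg_right hfX (by linarith)
    have e2 : 4 + 2 * 2 * Real.log n + 2 * 2 + (2 * 2 * Real.log (n.factorial : ℝ) +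
        3 * ((n.factorial : ℝ) * (3 * X + 2))) ≤ X ^ 3 := by nlinarith
    have e3 : X ^ 2 * (4 + 2 * 2 * Real.log n + 2 * 2 + (2 * 2 * Real.log (n.factorial : ℝ) +
        3 * ((n.factorial : ℝ) * (3 * X + 2)))) ≤ X ^ 2 * X ^ 3 :=
      mul_le_mul_of_nonneg_left e2 (by positivity)
    have e4 : X ^ 2 * X ^ 3 = X ^ 5 := by ring
    have e5 : 1 ≤ δ1 / 2 * X ^ 32 := by
      rw [hδ1]
      have e6 : cr * r0 / 8 / 2 * X ^ 32 = cr * r0 * X ^ 30 * (X ^ 2 / 16) := by ring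
      rw [e6]
      have e7 : 1 ≤ X ^ 2 / 16 := by
        rw [le_div_iff₀ (by norm_num)]
        nlinarith
      exact one_le_mul_of_one_le_of_one_le hcrr e7
    calc _ ≤ X ^ 2 * X ^ 3 := e3
      _ = X ^ 5 := e4
      _ ≤ X ^ 40 := hpw 5 (by norm_num)
      _ ≤ δ1 / 2 * W := hbig 32 _ (by norm_num) e5
  have hs : 1 ≤ η / (16 * (((2 : ℕ) : ℝ) + η)) * X ^ 4 := by
    push_cast
    rw [div_mul_eq_mul_div, le_div_iff₀ (by positivity), one_mul]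
    calc 16 * (2 + η) ≤ X ^ 2 := by nlinarith
      _ ≤ (η * X ^ 2) * X ^ 2 := le_mul_of_one_le_left (by positivity) hηX
      _ = η * X ^ 4 := by ring
  have t3 : 1 ≤ η / (16 * (((2 : ℕ) : ℝ) + η)) * r0 * ((N ^ kE : ℕ) : ℝ) := by
    rw [hcW]
    have e1 : 1 ≤ η / (16 * (((2 : ℕ) : ℝ) + η)) * r0 * X ^ 5 := by
      calc 1 ≤ η / (16 * (((2 : ℕ) : ℝ) + η)) * X ^ 4 := hs
        _ = η / (16 * (((2 : ℕ) : ℝ) + η)) * (r0 * X) * X ^ 4 := by rw [hr0X, mul_one]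
        _ = η / (16 * (((2 : ℕ) : ℝ) + η)) * r0 * X ^ 5 := by ring
    exact (one_le_pow₀ hX1).trans (hbig 5 _ (by norm_num) e1)
  have t4 : 2 * (n.factorial : ℝ) + 1 ≤ η / (16 * (((2 : ℕ) : ℝ) + η)) * ((N ^ kE : ℕ) : ℝ) := by
    rw [hcW]
    calc 2 * (n.factorial : ℝ) + 1 ≤ X ^ 2 := by nlinarith
      _ ≤ X ^ 40 := hpw 2 (by norm_num)
      _ ≤ _ := hbig 4 _ (by norm_num) hs
  have t5 : 8 * (8 * ((2 : ℕ) : ℝ) + 2 * ((2 : ℕ) : ℝ) * n) ≤ η * ((N ^ kE : ℕ) : ℝ) := by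
    rw [hcW]
    push_cast
    calc 8 * (8 * 2 + 2 * 2 * (n : ℝ)) ≤ X ^ 2 := by nlinarith
      _ ≤ X ^ 40 := hpw 2 (by norm_num)
      _ ≤ _ := hbig 2 _ (by norm_num) hηX
  have t6 : 4 * ((n : ℝ) ^ (2 * 2) + (n : ℝ) ^ 2 * (((2 : ℕ) : ℝ) * n + ((2 : ℕ) : ℝ) * (n * (2 * n)))) /
      (cr * r0 * (n : ℝ) ^ 2 / 2) ≤ ((N ^ kE : ℕ) : ℝ) := by
    rw [hcW, div_le_iff₀ (by positivity), mul_comm W]
    push_cast
    have e1 : 1 ≤ cr * r0 * (n : ℝ) ^ 2 / 2 * X ^ 30 := by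
      have e2 : cr * r0 * (n : ℝ) ^ 2 / 2 * X ^ 30 = cr * r0 * X ^ 30 * ((n : ℝ) ^ 2 / 2) := by ring
      rw [e2]
      have e3 : 1 ≤ (n : ℝ) ^ 2 / 2 := by
        rw [le_div_iff₀ (by norm_num)]
        nlinarith
      exact one_le_mul_of_one_le_of_one_le hcrr e3
    have e4 : (n : ℝ) ^ 2 ≤ X ^ 2 / 36 := by
      rw [le_div_iff₀ (by norm_num)]
      nlinarith
    have e5 : 4 * ((n : ℝ) ^ (2 * 2) + (n : ℝ) ^ 2 * (2 * n + 2 * (n * (2 * n)))) ≤ X ^ 4 := by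
      have e6 : 4 * ((n : ℝ) ^ (2 * 2) + (n : ℝ) ^ 2 * (2 * n + 2 * (n * (2 * n)))) =
          (n : ℝ) ^ 2 * (20 * (n : ℝ) ^ 2 + 8 * n) := by ring
      have e7 : 20 * (n : ℝ) ^ 2 + 8 * n ≤ X ^ 2 := by nlinarith
      have e8 : (n : ℝ) ^ 2 ≤ X ^ 2 := by nlinarith
      rw [e6]
      calc (n : ℝ) ^ 2 * (20 * (n : ℝ) ^ 2 + 8 * n) ≤ X ^ 2 * X ^ 2 :=
            mul_le_mul e8 e7 (by positivity) (by positivity)
        _ = X ^ 4 := by ring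
    exact e5.trans ((hpw 4 (by norm_num)).trans (hbig 30 _ (by norm_num) e1))
  have t7 : 8 ≤ cr * r0 * ((N ^ kE : ℕ) : ℝ) := by
    rw [hcW]
    calc (8 : ℝ) ≤ X ^ 1 := by linarith
      _ ≤ X ^ 40 := hpw 1 (by norm_num)
      _ ≤ _ := hbig 30 _ (by norm_num) hcrr
  have hR1 : 1 ≤ (N : ℝ) ^ kE := by
    rw [← hX]
    exact one_le_pow₀ hX1
  have hR2 : 2 / cr ≤ (N : ℝ) ^ kE := by
    have e0 : (N : ℝ) ^ kE = W := by
      rw [← hcW]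
      push_cast
      rfl
    rw [e0, div_le_iff₀ hcr0, mul_comm W]
    calc (2 : ℝ) ≤ X ^ 1 := by linarith
      _ ≤ X ^ 40 := hpw 1 (by norm_num)
      _ ≤ _ := hbig 29 _ (by norm_num) hcrX
  have hr : 1 ≤ ((N ^ 2 : ℕ) : ℝ) * η := by
    have e0 : ((N ^ 2 : ℕ) : ℝ) = X ^ 2 := by
      rw [hX]
      push_cast
      rfl
    rw [e0, mul_comm]
    exact hηX
  intro P PP hst hnear hcard hϱh hR
  refine far_x 2 n κ (by norm_num) hn g hg0 η hcnt (N ^ 2) hr ϱ hϱ0 hϱ1 r0 hr00 hrϱ cr hcr0 hroth δ1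
    hδ10 hδa hδb (N ^ kE) t1 t2 t3 t4 t5 t6 t7 ((N : ℝ) ^ kE) hR1 hR2 P PP hst hnear ?_ hϱh hR
  refine le_trans ?_ hcard
  refine mul_le_mul_of_nonneg_right (by linarith) ?_
  positivity

end Pool.Agent.H37.XP
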