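import Pool.Agent.H97.TR.THR
import Pool.Agent.H97.TR.RLR

/-! # The roots of the rational fibres, explicit constants (helper37)

Copies of `thR_rts`, `thR_norm` (`Pool/Agent/H97/TR/THR.lean`), `fam_realR` (`Pool/Agent/H97/TR/RLR.lean`). -/

namespace Pool.Agent.H37.XP

open Finset Polynomial Pool.Agent.H72.ES Pool.Agent.H87.SA Pool.Agent.H87.SA2 Pool.Agent.H8.AW
  Pool.Agent.H52.AC Pool.Agent.H97.NW Pool.Agent.H34.AC Pool.Agent.H97.FB Pool.Agent.H97.GA
  Pool.Agent.H97.TV Pool.Agent.H98.MR Pool.Agent.H97.TR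

private theorem thr_double {n : ℕ} (z : Fin n → ℂ) {i j : Fin n} (hij : j ≠ i) (h : z j = z i) :
    (derivative (∏ k, (X - C (z k)))).eval (z i) = 0 := by
  classical
  have h1 : ∏ k, (X - C (z k)) = (X - C (z i)) * ((X - C (z j)) *
      ∏ k ∈ (univ.erase i).erase j, (X - C (z k))) := by
    rw [mul_prod_erase (univ.erase i) (fun k => X - C (z k)) (mem_erase.2 ⟨hij, mem_univ j⟩),
      mul_prod_erase univ (fun k => X - C (z k)) (mem_univ i)]
  rw [h1, derivative_mul, derivative_mul, h]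
  simp

theorem thRX_rts (n m : ℕ) : ∀ (B : ℕ) (f : ℤ[X][X]) (Fm : FamB n m B f) (a w : ℕ),
    1 ≤ w → B ^ (3 * n.factorial) * w ≤ a → Rts (fr n m f a w) (thR Fm.pd m a w) := by
  intro B f Fm a w hw ha
  have hB2 := Fm.B2
  have hfac : 1 ≤ n.factorial := Nat.factorial_pos n
  have hBR := XR_big n m Fm hw ha
  have hB3 : B ^ 3 * w ≤ a :=
    (Nat.mul_le_mul_right _ (Nat.pow_le_pow_right (by omega) (by omega))).trans ha
  have hB4 : B + 2 ≤ B ^ 3 := by
    have h1 : 2 ^ 2 ≤ B ^ 2 := Nat.pow_le_pow_left hB2 2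
    have h2 : 2 ^ 2 * B ≤ B ^ 2 * B := Nat.mul_le_mul_right B h1
    have h3 : B ^ 2 * B = B ^ 3 := by ring
    omega
  have ha1 : 1 ≤ a := by
    have h1 : 1 ≤ B ^ 3 * w := Nat.mul_pos (by positivity) hw
    omega
  have haC : (a : ℂ) ≠ 0 := by
    have : a ≠ 0 := by omega
    exact_mod_cast this
  have ham : (a : ℂ) ^ m ≠ 0 := pow_ne_zero _ haC
  have hsp := rv_split Fm ha1 hw hBR
  refine ⟨?_, ?_⟩
  · refine Polynomial.funext fun z => ?_
    obtain ⟨u, rfl⟩ : ∃ u : ℂ, (a : ℂ) ^ m * u = z :=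
      ⟨((a : ℂ) ^ m)⁻¹ * z, by rw [mul_inv_cancel_left₀ ham]⟩
    rw [fr_fibre Fm.cdeg ha1, hsp, eval_prod, eval_prod, pow_mul]
    have h3 : ((a : ℂ) ^ m) ^ n = ∏ _i : Fin n, (a : ℂ) ^ m := by
      rw [Finset.prod_const, Finset.card_univ, Fintype.card_fin]
    rw [h3, ← Finset.prod_mul_distrib]
    refine Finset.prod_congr rfl fun i _ => ?_
    rw [eval_sub, eval_X, eval_C, eval_sub, eval_X, eval_C]
    unfold thR
    ring
  · intro i j hij
    unfold thR at hij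
    have h1 := mul_left_cancel₀ ham hij
    by_contra hne
    obtain ⟨u, v, c, hc0, hbez, -, hcle⟩ := Fm.bez
    have h2 := Pool.Agent.H97.XC.near_zero_bd hc0 B hcle w a hw
      ((Nat.mul_le_mul_right _ hB4).trans hB3)
    obtain ⟨φ, hφ⟩ : ∃ φ : ℤ[X] →+* ℂ,
      φ = eval₂RingHom (Int.castRingHom ℂ) ((w : ℂ) * ((a : ℂ))⁻¹) := ⟨_, rfl⟩
    rw [← hφ] at hsp
    have h3 := congrArg (fun p => (p.map φ).eval (evC (1 / XR Fm.pd a w) (Fm.pd.x i))) hbez
    simp only [Polynomial.map_add, Polynomial.map_mul, map_C, eval_add, eval_mul, eval_C] at h3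
    rw [← Polynomial.derivative_map, hsp,
      thr_double (fun k => evC (1 / XR Fm.pd a w) (Fm.pd.x k)) (Ne.symm hne) h1.symm, mul_zero, add_zero,
      eval_prod, Finset.prod_eq_zero (Finset.mem_univ i) (by rw [eval_sub, eval_X, eval_C, sub_self]),
      mul_zero] at h3
    apply h2
    rw [h3, hφ]
    rfl

theorem thRX_norm (n m : ℕ) : ∀ (B : ℕ) (f : ℤ[X][X]) (Fm : FamB n m B f) (a w : ℕ),
    1 ≤ w → B ^ (3 * n.factorial + m + 2) * w ≤ a →
    ∀ l, ‖thR Fm.pd m a w l‖ ≤ (a : ℝ) ^ (3 * n.factorial + m + 2) := by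
  intro B f Fm a w hw ha l
  have hB2 := Fm.B2
  have hBR := XR_big n m Fm hw ((Nat.mul_le_mul_right _ (Nat.pow_le_pow_right (by omega)
    (by omega))).trans ha)
  have hBa : B ^ 2 ≤ a := by
    have h1 : B ^ 2 ≤ B ^ (3 * n.factorial + m + 2) := Nat.pow_le_pow_right (by omega) (by omega)
    exact (h1.trans (Nat.le_mul_of_pos_right _ hw)).trans ha
  have ha1 : 1 ≤ a := (Nat.one_le_pow 2 B (by omega)).trans hBa
  have haR : (1 : ℝ) ≤ a := by exact_mod_cast ha1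
  have hX := XR_pos Fm.pd ha1 hw
  have hR := Fm.pd.R_ge
  have hRB := Fm.R_le
  have h1 : ‖evC (1 / XR Fm.pd a w) (Fm.pd.x l)‖ ≤ 2 * Fm.pd.R := by
    rw [evC_eq_evz (one_div_pos.2 hX).le (XR_gr Fm.pd ha1 hw hBR l)]
    refine evz_le (C := Fm.pd.R) (R := Fm.pd.R) (by linarith) (by linarith) ?_ (fun k => ?_)
    · rw [Complex.norm_real, Real.norm_eq_abs, abs_of_pos (one_div_pos.2 hX), mul_one_div,
        div_le_div_iff₀ hX (by norm_num)]
      linarith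
    · refine (Fm.pd.growth l k).trans_eq ?_
      rw [pow_succ, mul_comm]
  have hBr : (2 : ℝ) ≤ B := by exact_mod_cast hB2
  have h2 : 2 * Fm.pd.R ≤ (a : ℝ) := by
    have h3 : (B : ℝ) ^ 2 ≤ a := by exact_mod_cast hBa
    nlinarith
  unfold thR
  rw [norm_mul, norm_pow, Complex.norm_natCast]
  calc (a : ℝ) ^ m * ‖evC (1 / XR Fm.pd a w) (Fm.pd.x l)‖ ≤ (a : ℝ) ^ m * a :=
        mul_le_mul_of_nonneg_left (h1.trans h2) (by positivity)
    _ = (a : ℝ) ^ (m + 1) := by rw [pow_succ]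
    _ ≤ (a : ℝ) ^ (3 * n.factorial + m + 2) := pow_le_pow_right₀ haR (by omega)

/-- a real root of the fibre lies on a real branch -/
theorem realX (n m : ℕ) : ∀ (B : ℕ) (f : ℤ[X][X]) (Fm : FamB n m B f) (a w : ℕ),
    1 ≤ w → B ^ (3 * n.factorial) * w ≤ a →
    ∀ l, starRingEnd ℂ (thR Fm.pd m a w l) = thR Fm.pd m a w l →
    (Fm.pd.x l).map (starRingEnd ℂ) = Fm.pd.x l := by
  intro B f Fm a w hw h2 l hl
  have hB2 := Fm.B2
  have ha1 : 1 ≤ a := (Nat.mul_pos (by positivity) hw : 0 < B ^ (3 * n.factorial) * w).trans_le h2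
  obtain ⟨-, hinj⟩ := thRX_rts n m B f Fm a w hw h2
  have hXA := XR_big n m Fm hw h2
  have hX0 := XR_pos Fm.pd ha1 hw
  obtain ⟨j, hj⟩ := perm_of Fm.pd (PowerSeries.map (starRingEnd ℂ)) (tq_conj' _ _) l
  have h3 : thR Fm.pd m a w j = starRingEnd ℂ (thR Fm.pd m a w l) := by
    unfold thR
    rw [evC_eq_evz (one_div_pos.2 hX0).le (XR_gr Fm.pd ha1 hw hXA j),
      evC_eq_evz (one_div_pos.2 hX0).le (XR_gr Fm.pd ha1 hw hXA l), map_mul, map_pow,
      Complex.conj_natCast]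
    congr 1
    have h4 := evT_conj ((1 / XR Fm.pd a w : ℝ) : ℂ) (Fm.pd.x l)
    rw [Complex.conj_ofReal, hj] at h4
    exact h4
  rw [hl] at h3
  have h4 : j = l := hinj h3
  rw [h4] at hj
  exact hj

end Pool.Agent.H37.XP
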