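import Pool.Agent.H97.TR.THR
import Pool.Agent.H87.TR.ALR
import Pool.Agent.H87.TR.TAR
import Pool.Agent.H87.TR.EVR
import Pool.Agent.H87.TR.XRP
import Pool.Agent.H98.MR.Defs
import Pool.Agent.H98.TY.CRV
import Pool.Agent.H98.TY.MUV
import Pool.Agent.H97.FB.ANV
import Pool.Agent.H97.TV.EQC
import Pool.Agent.H87.TR.RER
import Pool.Agent.H37.XP.THX
import Pool.Agent.H37.XP.CRX
import Pool.Agent.H37.XP.LMX

/-! # The twisted pointed curve of a rational fibre, explicit constants (helper37)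

Copy of `exists_tyR0` (`Pool/Agent/H87/TR/TWF.lean`) with explicit constants. -/

namespace Pool.Agent.H37.XP

open Finset Polynomial Pool.Agent.H72.ES Pool.Agent.H87.SA2 Pool.Agent.H8.AW Pool.Agent.H52.AC
  Pool.Agent.H97.NW Pool.Agent.H97.FB Pool.Agent.H97.FC Pool.Agent.H97.GA Pool.Agent.H37.TU
  Pool.Agent.H97.TU Pool.Agent.H97.TV Pool.Agent.H98.MR Pool.Agent.H87.TW Pool.Agent.H87.TX
  Pool.Agent.H98.TY Pool.Agent.H97.TR Pool.Agent.H87.TR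

private theorem twf_int {n : ℕ} {p : ℤ[X]} (hm : p.Monic) {θ : Fin n → ℂ}
    (h : Rts p θ) (u : Fin n) : IsIntegral ℤ (θ u) := by
  refine ⟨p, hm, ?_⟩
  have h1 : (p.map (Int.castRingHom ℂ)).eval (θ u) = 0 := by
    rw [h.1, eval_prod]
    exact prod_eq_zero (mem_univ u) (by simp)
  rw [eval_map] at h1
  exact h1

private theorem twf_AA {z : ℂ} (hz : IsIntegral ℤ z) : z ∈ AA := by
  rw [mem_algebraicClosure_iff]
  exact (hz.tower_top (A := ℚ)).isAlgebraic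

private theorem twf_wv {n lam Λ a K0 : ℕ} (hlam : lam ≤ Λ) (ha : 1 ≤ a) (hb : n * (Λ + 1) ^ n ≤ a)
    {θ : ℂ} (hθ : ‖θ‖ ≤ (a : ℝ) ^ K0) : ‖wv n lam θ‖ ≤ (a : ℝ) ^ (K0 * n + 1) := by
  unfold wv
  have ha1 : (1 : ℝ) ≤ a := by exact_mod_cast ha
  have h1 : ∀ l ∈ range n, ‖(lam : ℂ) ^ l * θ ^ l‖ ≤ ((Λ : ℝ) + 1) ^ n * (a : ℝ) ^ (K0 * n) := by
    intro l hl
    have hl' : l ≤ n := (mem_range.1 hl).le
    rw [norm_mul, _root_.norm_pow, _root_.norm_pow, Complex.norm_natCast]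
    refine mul_le_mul ?_ ?_ (by positivity) (by positivity)
    · have h2 : (lam : ℝ) ≤ (Λ : ℝ) + 1 := by
        have : (lam : ℝ) ≤ Λ := by exact_mod_cast hlam
        linarith
      refine (pow_le_pow_left₀ (by positivity) h2 l).trans ?_
      exact pow_le_pow_right₀ (by have : (0 : ℝ) ≤ Λ := by positivity
                                  linarith) hl'
    · refine (pow_le_pow_left₀ (norm_nonneg _) hθ l).trans ?_
      rw [← pow_mul]
      exact pow_le_pow_right₀ ha1 (Nat.mul_le_mul_left _ hl')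
  refine (norm_sum_le _ _).trans ((sum_le_sum h1).trans ?_)
  rw [sum_const, card_range, nsmul_eq_mul]
  have h3 : (n : ℝ) * ((Λ : ℝ) + 1) ^ n ≤ a := by exact_mod_cast hb
  calc (n : ℝ) * (((Λ : ℝ) + 1) ^ n * (a : ℝ) ^ (K0 * n)) =
        ((n : ℝ) * ((Λ : ℝ) + 1) ^ n) * (a : ℝ) ^ (K0 * n) := by ring
    _ ≤ a * (a : ℝ) ^ (K0 * n) := mul_le_mul_of_nonneg_right h3 (by positivity)
    _ = (a : ℝ) ^ (K0 * n + 1) := by rw [pow_succ]; ring

/-- the exponent of the growth of the twisted curve -/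
def KAP (n m : ℕ) : ℕ := ((3 * n.factorial + m + 2) * n + 4) * KV (m * n.factorial)

theorem KAP_pos (n m : ℕ) : 1 ≤ KAP n m := Nat.mul_pos (by omega) (KV_pos _)

/-- the exponent of the parameter, minimal ramification -/
def CV0 (n m c : ℕ) : ℕ := n * (LV n m + 1) ^ n + n + c + LV n m + n.factorial +
  3 * n.factorial + (3 * n.factorial + m + 2) + 2

theorem tyX0 (n m : ℕ) (hm : 1 ≤ m) (c : ℕ) :
    ∀ (B : ℕ) (f : ℤ[X][X]) (Fm : FamB n m B f), Mnl Fm.pd → ∀ a w : ℕ, 1 ≤ w →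
    B ^ CV0 n m c * w ≤ a → ∀ ν : ℕ, m * n.factorial ≤ ν → ∃ P : Ptr ν,
      P.x = ((a ^ m : ℕ) : ℤ) ∧ P.w = w ^ m ∧ Rlr (KAP n m) c P ∧
      TauR (thR Fm.pd m a w) Fm.pd P := by
  classical
  obtain ⟨Λ, hΛd⟩ : ∃ Λ, Λ = LV n m := ⟨_, rfl⟩
  have hΛ := lmuX n m hm
  rw [← hΛd] at hΛ
  obtain ⟨K, hKd⟩ : ∃ K, K = KV (m * n.factorial) := ⟨_, rfl⟩
  have hK1 : 1 ≤ K := by rw [hKd]; exact KV_pos _
  obtain ⟨C2, hC2d⟩ : ∃ C2, C2 = 3 * n.factorial := ⟨_, rfl⟩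
  have hC2 := thRX_rts n m
  rw [← hC2d] at hC2
  obtain ⟨K0, hK0d⟩ : ∃ K0, K0 = 3 * n.factorial + m + 2 := ⟨_, rfl⟩
  have hK0 := thRX_norm n m
  rw [← hK0d] at hK0
  obtain ⟨CC, hCC⟩ : ∃ CC, CC = n * (Λ + 1) ^ n + n + c + Λ + n.factorial + C2 + K0 + 2 :=
    ⟨_, rfl⟩
  have hCV : CV0 n m c = CC := by
    rw [hCC, hΛd, hC2d, hK0d]
    rfl
  have hKAP : KAP n m = (K0 * n + 4) * K := by
    rw [hK0d, hKd]
    rfl
  rw [hCV, hKAP]
  intro B f Fm hmin a w hw haC ν hν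
  have hB2 : 2 ≤ B := Fm.B2
  have hpw : ∀ k : ℕ, k ≤ CC → B ^ k * w ≤ a := fun k hk =>
    (Nat.mul_le_mul_right w (Nat.pow_le_pow_right (by omega) hk)).trans haC
  have hpow : ∀ k : ℕ, k ≤ CC → B ^ k ≤ a := fun k hk =>
    (Nat.le_mul_of_pos_right _ hw).trans (hpw k hk)
  have hlt : ∀ k : ℕ, k ≤ CC → k < a := fun k hk =>
    (Nat.lt_pow_self (by omega : 1 < B)).trans_le (hpow k hk)
  have ha1 : 1 ≤ a := hlt 0 (by omega)
  have ha2 : 2 ≤ a := hlt 1 (by omega)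
  have hab : n * (Λ + 1) ^ n ≤ a := (hlt _ (by omega)).le
  have han : n ≤ a := (hlt _ (by omega)).le
  have haΛ : Λ ≤ a := (hlt _ (by omega)).le
  have hBa2 : B ^ 2 ≤ a := hpow 2 (by omega)
  have hBa : B < a := by nlinarith
  have hwR0 : (0 : ℝ) < w := by exact_mod_cast hw
  have hwR1 : (1 : ℝ) ≤ w := by exact_mod_cast hw
  have hwC0 : (w : ℂ) ≠ 0 := by
    have : w ≠ 0 := by omega
    exact_mod_cast this
  have hrat : ∀ k : ℕ, k ≤ CC → ((B ^ k : ℕ) : ℝ) ≤ (a : ℝ) / w := fun k hk =>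
    ratio_le hw (hpw k hk)
  have haR1 : (1 : ℝ) ≤ a := by exact_mod_cast ha1
  have haR0 : (0 : ℝ) < a := by linarith
  have hBR2 : (2 : ℝ) ≤ B := by exact_mod_cast hB2
  have hBaR : (B : ℝ) < a := by exact_mod_cast hBa
  have hnaR : (n : ℝ) ≤ a := by exact_mod_cast han
  have hq1 : 1 ≤ Fm.pd.q := Fm.pd.q_pos
  have hqR1 : (1 : ℝ) ≤ Fm.pd.q := by exact_mod_cast hq1
  have hq0 : (Fm.pd.q : ℂ) ≠ 0 := by
    have : Fm.pd.q ≠ 0 := by omega
    exact_mod_cast this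
  have ha0 : (a : ℂ) ≠ 0 := by
    have : a ≠ 0 := by omega
    exact_mod_cast this
  have hqB : Fm.pd.q ≤ B := Fm.q_le
  have he1 : 1 ≤ Fm.pd.e := Fm.pd.e_pos
  -- the parameter
  have hX := Pool.Agent.H97.TR.XR_pos Fm.pd ha1 hw
  have hBX : (B : ℝ) < XR Fm.pd a w := by
    refine lt_of_pow_lt_pow_left₀ Fm.pd.e hX.le ?_
    rw [Pool.Agent.H97.TR.XR_pow]
    have h1 : ((B ^ Fm.pd.e : ℕ) : ℝ) < (a : ℝ) / w := by
      have h2 : B ^ Fm.pd.e < B ^ (n.factorial + 1) :=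
        Nat.pow_lt_pow_right (by omega) (Nat.lt_succ_of_le Fm.e_le)
      exact lt_of_lt_of_le (by exact_mod_cast h2) (hrat _ (by omega))
    have h2 : (1 : ℝ) ≤ (Fm.pd.q : ℝ) ^ Fm.pd.e := one_le_pow₀ hqR1
    calc (B : ℝ) ^ Fm.pd.e = ((B ^ Fm.pd.e : ℕ) : ℝ) := by push_cast; rfl
      _ < (a : ℝ) / w := h1
      _ = 1 * ((a : ℝ) / w) := (one_mul _).symm
      _ ≤ (Fm.pd.q : ℝ) ^ Fm.pd.e * ((a : ℝ) / w) :=
          mul_le_mul_of_nonneg_right h2 (by positivity)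
  obtain ⟨T, hT⟩ : ∃ T : ℂ, T = ((1 / XR Fm.pd a w : ℝ) : ℂ) := ⟨_, rfl⟩
  have hTnorm : ‖T‖ = 1 / XR Fm.pd a w := by
    rw [hT, Complex.norm_real, Real.norm_eq_abs, abs_of_pos (one_div_pos.2 hX)]
  have hTn : (B : ℝ) * ‖T‖ < 1 := by
    rw [hTnorm, mul_one_div, div_lt_one hX]
    exact hBX
  have hRT : Fm.pd.R * ‖T‖ < 1 :=
    (mul_le_mul_of_nonneg_right Fm.R_le (norm_nonneg _)).trans_lt hTn
  have hT0 : T ≠ 0 := by
    rw [hT]
    exact_mod_cast (one_div_pos.2 hX).ne'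
  have hXC : (XR Fm.pd a w : ℂ) ^ Fm.pd.e = (Fm.pd.q : ℂ) ^ Fm.pd.e * ((a : ℂ) / w) := by
    have h5 := congrArg (fun z : ℝ => (z : ℂ)) (Pool.Agent.H97.TR.XR_pow Fm.pd a w)
    push_cast at h5
    exact h5
  have hXC0 : (XR Fm.pd a w : ℂ) ≠ 0 := by exact_mod_cast hX.ne'
  have haT : ((Fm.pd.q : ℂ) * T) ^ Fm.pd.e * a = w := by
    have h1 : T = 1 / (XR Fm.pd a w : ℂ) := by
      rw [hT]
      push_cast
      rfl
    rw [h1, mul_pow, div_pow, one_pow, hXC]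
    have h2 : (Fm.pd.q : ℂ) ^ Fm.pd.e ≠ 0 := pow_ne_zero _ hq0
    field_simp
  have hRB : ∀ u k, ‖PowerSeries.coeff k (Fm.pd.x u)‖ ≤ (B : ℝ) ^ (k + 1) := fun u k =>
    (Fm.pd.growth u k).trans (pow_le_pow_left₀ (by linarith [Fm.pd.R_ge]) Fm.R_le _)
  obtain ⟨θ, hθ⟩ : ∃ θ : Fin n → ℂ, θ = thR Fm.pd m a w := ⟨_, rfl⟩
  have hR : Rts (fr n m f a w) θ := by
    rw [hθ]
    exact hC2 B f Fm a w hw (hpw _ (by omega))
  have hth : ∀ u, ‖θ u‖ ≤ (a : ℝ) ^ K0 := by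
    rw [hθ]
    exact hK0 B f Fm a w hw (hpw _ (by omega))
  have hθv : ∀ u, θ u = (a : ℂ) ^ m * evz T (Fm.pd.x u) := by
    intro u
    have hgr : Gr (1 / XR Fm.pd a w) (Fm.pd.x u) := by
      refine anv_gr Fm.pd (one_div_pos.2 hX).le ?_ u
      rw [← hTnorm]
      exact hRT
    rw [hθ, hT]
    unfold thR
    rw [evC_eq_evz (one_div_pos.2 hX).le hgr]
  -- the weight and mu
  obtain ⟨lam, hlam, mu, hmule, hZi, huni⟩ := hΛ (rv n m f) Fm.pd θ a T hT0 hRT hR.2 hθv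
  obtain ⟨W, hW⟩ : ∃ W : Fin n → ℂ, W = fun u => wv n lam (θ u) := ⟨_, rfl⟩
  have hmua : mu ≤ a := hmule.trans haΛ
  obtain ⟨D, F, j, k0, hDn, hmD, hF1, hF2, hFirr, hjinj, hj0, hsplit⟩ := exists_algR Fm hmin
    (fr n m f a w) lam mu θ hR.1 hZi
  rw [← hW] at hZi huni hsplit
  obtain ⟨y0, hy0⟩ := tw_int (fr n m f a w) θ hR.1 lam
  obtain ⟨y, hy⟩ : ∃ y : ℤ, y = y0 + mu * a * w ^ (m - 1) := ⟨_, rfl⟩
  have hyC : (y : ℂ) = ∑ u, W u * θ u + (mu : ℂ) * a * (w : ℂ) ^ (m - 1) := by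
    rw [hy, hW]
    push_cast
    rw [hy0]
  obtain ⟨Z, hZ⟩ : ∃ Z : Fin D → PowerSeries ℂ,
      Z = fun k => ZV Fm.pd.e m Fm.pd.q mu W Fm.pd.x (j k) := ⟨_, rfl⟩
  obtain ⟨A, hA⟩ : ∃ A : ℕ, A = a ^ (K0 * n + 4) := ⟨_, rfl⟩
  have hAR : (A : ℝ) = (a : ℝ) ^ (K0 * n + 4) := by rw [hA]; push_cast; rfl
  have haA : a ≤ A := by
    rw [hA]
    exact Nat.le_self_pow (by omega) a
  have hWn : ∀ u, ‖W u‖ ≤ (a : ℝ) ^ (K0 * n + 1) := fun u => by
    rw [hW]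
    exact twf_wv hlam ha1 hab (hth u)
  have hgr : ∀ i k, ‖PowerSeries.coeff k (Z i)‖ ≤ (A : ℝ) * (B : ℝ) ^ k := by
    intro i k
    rw [hZ]
    refine (zv_growth he1 hm W Fm.pd.x (by positivity) (by positivity) le_rfl (by linarith)
      (by exact_mod_cast hqB) hWn hRB (j i) k).trans ?_
    refine mul_le_mul_of_nonneg_right ?_ (by positivity)
    rw [hAR]
    have h1 : (n : ℝ) * (a : ℝ) ^ (K0 * n + 1) * B ≤ (a : ℝ) ^ (K0 * n + 3) := by
      calc (n : ℝ) * (a : ℝ) ^ (K0 * n + 1) * B ≤ a * (a : ℝ) ^ (K0 * n + 1) * a := by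
            refine mul_le_mul ?_ hBaR.le (by positivity) (by positivity)
            exact mul_le_mul_of_nonneg_right hnaR (by positivity)
        _ = (a : ℝ) ^ (K0 * n + 3) := by ring
    have h2 : (mu : ℝ) ≤ (a : ℝ) ^ (K0 * n + 3) :=
      (by exact_mod_cast hmua : (mu : ℝ) ≤ a).trans (le_self_pow₀ haR1 (by omega))
    have h3 : (2 : ℝ) ≤ a := by exact_mod_cast ha2
    calc (n : ℝ) * (a : ℝ) ^ (K0 * n + 1) * B + mu ≤ 2 * (a : ℝ) ^ (K0 * n + 3) := by linarith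
      _ ≤ a * (a : ℝ) ^ (K0 * n + 3) := mul_le_mul_of_nonneg_right h3 (by positivity)
      _ = (a : ℝ) ^ (K0 * n + 4) := by ring
  have hBA : (B : ℝ) ≤ A := hBaR.le.trans (by exact_mod_cast haA)
  have hZinj : Function.Injective Z := by
    intro k k' hkk
    apply hjinj
    rw [hZ] at hkk
    exact hZi hkk
  have hWint : ∀ u, IsIntegral ℤ (W u) := by
    intro u
    rw [hW]
    unfold wv
    refine IsIntegral.sum _ fun l _ => ?_
    refine IsIntegral.mul (IsIntegral.pow ?_ l) (IsIntegral.pow (twf_int (fr_monic Fm.monic Fm.deg a w).1 hR u) l)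
    exact_mod_cast (isIntegral_algebraMap (R := ℤ) (A := ℂ) (x := (lam : ℤ)))
  have hK := crvXX (m * n.factorial) (Fm.pd.e * m) (Nat.mul_pos he1 hm)
  rw [← hKd] at hK
  obtain ⟨Cv, hCe, hCq, hCx⟩ := hK ν D A Fm.pd.q F Z hDn (hDn.trans hν) hmD
    (ha2.trans haA) hq1 (hqB.trans (hBa.le.trans haA)) hF1 hF2 hFirr hZinj
    (fun i k => by rw [hZ]; exact zv_int he1 hm W Fm.pd.x hWint Fm.pd.integral (j i) k)
    (fun i k => (hgr i k).trans (mul_le_mul_of_nonneg_left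
      (pow_le_pow_left₀ (by positivity) hBA k) (by positivity))) (by
      rw [hZ]
      exact hsplit)
  -- the values
  have ham : (a : ℂ) ^ m ≠ 0 := pow_ne_zero m ha0
  have hval0 : (a : ℂ) ^ m * evz T (ZV Fm.pd.e m Fm.pd.q mu W Fm.pd.x (⟨0, hm⟩, 1)) = y := by
    rw [zv_ev he1 hm W Fm.pd.x (by positivity) hRB _ hTn, hyC]
    show (a : ℂ) ^ m * (∑ u, W u * evz (rou (Fm.pd.e * m) ^ 0 * T) (Fm.pd.x u) +
      (mu : ℂ) * ((Fm.pd.q : ℂ) * (rou (Fm.pd.e * m) ^ 0 * T)) ^ (Fm.pd.e * (m - 1))) = _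
    rw [pow_zero, one_mul, mul_add, mul_sum]
    congr 1
    · refine sum_congr rfl fun u _ => ?_
      rw [hθv u]
      ring
    · have h1 : (a : ℂ) ^ m = (a : ℂ) ^ (m - 1) * a := by
        rw [← pow_succ]
        congr 1
        omega
      have h3 : (((Fm.pd.q : ℂ) * T) ^ Fm.pd.e) ^ (m - 1) * (a : ℂ) ^ (m - 1) =
          (w : ℂ) ^ (m - 1) := by
        rw [← mul_pow, haT]
      rw [h1, pow_mul]
      calc (a : ℂ) ^ (m - 1) * a * ((mu : ℂ) * (((Fm.pd.q : ℂ) * T) ^ Fm.pd.e) ^ (m - 1)) =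
            (mu : ℂ) * a * ((((Fm.pd.q : ℂ) * T) ^ Fm.pd.e) ^ (m - 1) * (a : ℂ) ^ (m - 1)) := by
            ring
        _ = (mu : ℂ) * a * (w : ℂ) ^ (m - 1) := by rw [h3]
  have hcast : ((((a ^ m : ℕ) : ℤ)) : ℂ) = (a : ℂ) ^ m := by push_cast; rfl
  have hTx : ((Cv.pd.q : ℂ) * T) ^ Cv.pd.e * ((((a ^ m : ℕ) : ℤ)) : ℂ) = ((w ^ m : ℕ) : ℂ) := by
    rw [hCe, hCq, hcast, pow_mul, ← mul_pow, haT, Nat.cast_pow]
  have hwm : 1 ≤ w ^ m := Nat.one_le_pow _ _ hw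
  have hyv : evz T (Cv.pd.x k0) = (y : ℂ) / ((((a ^ m : ℕ) : ℤ)) : ℂ) := by
    rw [hCx, hcast, eq_div_iff ham, mul_comm, hZ]
    show (a : ℂ) ^ m * evz T (ZV Fm.pd.e m Fm.pd.q mu W Fm.pd.x (j k0)) = _
    rw [hj0]
    exact hval0
  have huniq : ∀ i, evz T (Cv.pd.x i) = (y : ℂ) / ((((a ^ m : ℕ) : ℤ)) : ℂ) → i = k0 := by
    intro i hi
    by_contra hne
    have hjne : j i ≠ (⟨0, Fm.m1⟩, 1) := fun h4 => hne (hjinj (h4.trans hj0.symm))
    refine huni (j i) hjne ?_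
    rw [← hyv, hCx, hZ] at hi
    have hi' : evz T (ZV Fm.pd.e m Fm.pd.q mu W Fm.pd.x (j i)) =
        evz T (ZV Fm.pd.e m Fm.pd.q mu W Fm.pd.x (j k0)) := hi
    rw [hj0] at hi'
    exact hi'
  have hgC : ∀ i k, ‖PowerSeries.coeff k (Cv.pd.x i)‖ ≤ (A : ℝ) * (B : ℝ) ^ k := by
    rw [hCx]
    exact hgr
  obtain ⟨hev, hevy⟩ := evyR Cv.pd (by positivity) (by positivity) hgC hTn hwm hTx hyv huniq
  let P : Ptr ν := ⟨D, A ^ K, F, Cv, k0, T, ((a ^ m : ℕ) : ℤ), y, w ^ m, hwm, hev, hTx, hyv⟩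
  have habs : |((P.x : ℤ) : ℝ)| = (a : ℝ) ^ m := by
    show |((((a ^ m : ℕ) : ℤ)) : ℝ)| = (a : ℝ) ^ m
    push_cast
    rw [abs_of_nonneg (by positivity)]
  have ham1 : (a : ℝ) ≤ (a : ℝ) ^ m := le_self_pow₀ haR1 (by omega)
  have hκ : (A : ℝ) ^ K = (a : ℝ) ^ ((K0 * n + 4) * K) := by
    rw [hAR, ← pow_mul]
  have hκm : (A : ℝ) ^ K ≤ ((a : ℝ) ^ m) ^ ((K0 * n + 4) * K) := by
    rw [hκ]
    exact pow_le_pow_left₀ (by positivity) ham1 _
  refine ⟨P, rfl, rfl, ⟨(B : ℝ), ?_⟩, ?_⟩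
  · refine ⟨hBR2, ?_, ?_, ?_, ?_, hevy⟩
    · rw [habs]
      show (B : ℝ) ^ c ≤ (a : ℝ) ^ m / ((w ^ m : ℕ) : ℝ)
      rw [Nat.cast_pow, ← div_pow]
      have h1 : (B : ℝ) ^ c ≤ (a : ℝ) / w := by
        have := hrat c (by omega)
        rwa [Nat.cast_pow] at this
      have h2 : (1 : ℝ) ≤ (a : ℝ) / w := (one_le_pow₀ (by linarith)).trans h1
      exact h1.trans (le_self_pow₀ h2 (by omega))
    · show ((Cv.pd.q : ℕ) : ℝ) ≤ B
      rw [hCq]
      exact_mod_cast Fm.q_le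
    · intro i k
      rw [habs]
      refine (hgC i k).trans (mul_le_mul_of_nonneg_right ?_ (by positivity))
      refine le_trans ?_ hκm
      have hA1 : (1 : ℝ) ≤ A := by
        have : 1 ≤ A := ha1.trans haA
        exact_mod_cast this
      exact le_self_pow₀ hA1 (by omega)
    · rw [habs]
      show ((A ^ K : ℕ) : ℝ) ≤ _
      rw [Nat.cast_pow]
      exact hκm
  · rw [← hθ]
    obtain ⟨h1, h2, h3⟩ := tau_gr (mu := mu) hm Fm.pd Cv.pd k0 θ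
      (fun u => twf_AA (twf_int (fr_monic Fm.monic Fm.deg a w).1 hR u)) lam hCe j
      (by
        rw [hj0])
      (by
        rw [← hW]
        exact hZi)
      (fun i => by
        rw [hCx, hZ, hW])
    exact ⟨fun i => (j i).2, h1, h2, h3, fun u w =>
      (eqC Fm mu W hZi (fI D F) j hjinj hsplit u w).le⟩

/-- the exponent of the parameter -/
def CV (n m c : ℕ) : ℕ := (n.factorial + 1) * CV0 n m c + (n.factorial + 1)

theorem redX (n m : ℕ) : ∀ (B : ℕ) (f : ℤ[X][X]) (Fm : FamB n m B f),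
    ∃ Fm' : FamB n m (B ^ (n.factorial + 1)) f, Mnl Fm'.pd ∧
      (∀ a w : ℕ, 1 ≤ w → B ^ (n.factorial + 1) * w ≤ a →
        ∀ u, thR Fm'.pd m a w u = thR Fm.pd m a w u) ∧
      ∀ (σ : AA →+* ℂ) (π : Equiv.Perm (Fin n)), PrmB Fm'.pd σ π → PrmB Fm.pd σ π := by
  intro B f Fm
  obtain ⟨k, pd', hk1, hek, hq, hR, hco, hnd, hev, hmin⟩ := exists_min Fm.pd
  have hB := Fm.B2
  have hR2 := Fm.pd.R_ge
  have he'1 := pd'.e_pos
  have hke : k ≤ Fm.pd.e := by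
    rw [hek]
    exact Nat.le_mul_of_pos_right k he'1
  have he'e : pd'.e ≤ Fm.pd.e := by
    rw [hek]
    exact Nat.le_mul_of_pos_left _ hk1
  have hBB : B ≤ B ^ (n.factorial + 1) := by
    calc B = B ^ 1 := (pow_one B).symm
      _ ≤ B ^ (n.factorial + 1) := Nat.pow_le_pow_right (by omega) (by omega)
  have hBk : B ^ k ≤ B ^ (n.factorial + 1) :=
    Nat.pow_le_pow_right (by omega) ((hke.trans Fm.e_le).trans (Nat.le_succ _))
  have hRk : Fm.pd.R ^ k ≤ ((B ^ k : ℕ) : ℝ) := by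
    rw [Nat.cast_pow]
    exact pow_le_pow_left₀ (by linarith) Fm.R_le _
  refine ⟨{ n2 := Fm.n2
            m1 := Fm.m1
            B2 := hB.trans hBB
            monic := Fm.monic
            deg := Fm.deg
            cdeg := Fm.cdeg
            le := fun i j => (Fm.le i j).trans (by exact_mod_cast hBB)
            irr := Fm.irr
            pd := pd'
            e_le := he'e.trans Fm.e_le
            q_le := by
              rw [hq]
              exact (Nat.pow_le_pow_left Fm.q_le _).trans hBk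
            R_le := by
              rw [hR]
              exact hRk.trans (by exact_mod_cast hBk)
            bez := by
              obtain ⟨u, v, c, h1, h2, h3, h4⟩ := Fm.bez
              exact ⟨u, v, c, h1, h2, h3, fun i => (h4 i).trans (by exact_mod_cast hBB)⟩ },
    hmin, ?_, ?_⟩
  · intro a w hw ha u
    show thR pd' m a w u = thR Fm.pd m a w u
    have ha1 : 1 ≤ a := by
      have : 1 ≤ B ^ (n.factorial + 1) := Nat.one_le_pow _ _ (by omega)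
      exact (Nat.mul_pos this hw).trans_le ha
    have hX := Pool.Agent.H97.TR.XR_pos Fm.pd ha1 hw
    have hX' := Pool.Agent.H97.TR.XR_pos pd' ha1 hw
    have hXX : XR pd' a w = XR Fm.pd a w ^ k := by
      refine (pow_left_inj₀ hX'.le (pow_pos hX k).le (by omega : pd'.e ≠ 0)).1 ?_
      rw [Pool.Agent.H97.TR.XR_pow, hq, ← pow_mul, ← hek, Pool.Agent.H97.TR.XR_pow, Nat.cast_pow, ← pow_mul, ← hek]
    have hRe : Fm.pd.R ^ Fm.pd.e ≤ ((B ^ Fm.pd.e : ℕ) : ℝ) := by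
      rw [Nat.cast_pow]
      exact pow_le_pow_left₀ (by linarith) Fm.R_le _
    have hlt : Fm.pd.R < XR Fm.pd a w := by
      refine lt_of_pow_lt_pow_left₀ Fm.pd.e hX.le ?_
      rw [Pool.Agent.H97.TR.XR_pow]
      have h1 : ((B ^ Fm.pd.e : ℕ) : ℝ) < (a : ℝ) / w := by
        have h2 : B ^ Fm.pd.e < B ^ (n.factorial + 1) :=
          Nat.pow_lt_pow_right (by omega) (Nat.lt_succ_of_le Fm.e_le)
        exact lt_of_lt_of_le (by exact_mod_cast h2) (ratio_le hw ha)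
      have h2 : (1 : ℝ) ≤ (Fm.pd.q : ℝ) ^ Fm.pd.e := one_le_pow₀ (anv_q Fm.pd)
      have h3 : (0 : ℝ) ≤ (a : ℝ) / w := by positivity
      calc Fm.pd.R ^ Fm.pd.e ≤ ((B ^ Fm.pd.e : ℕ) : ℝ) := hRe
        _ < (a : ℝ) / w := h1
        _ = 1 * ((a : ℝ) / w) := (one_mul _).symm
        _ ≤ (Fm.pd.q : ℝ) ^ Fm.pd.e * ((a : ℝ) / w) := mul_le_mul_of_nonneg_right h2 h3
    have hlt' : pd'.R < XR pd' a w := by
      rw [hR, hXX]
      exact pow_lt_pow_left₀ hlt (by linarith) (by omega)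
    have hgr : Gr (1 / XR Fm.pd a w) (Fm.pd.x u) := by
      refine anv_gr Fm.pd (one_div_pos.2 hX).le ?_ u
      rw [mul_one_div, div_lt_one hX]
      exact hlt
    have hgr' : Gr (1 / XR pd' a w) (pd'.x u) := by
      refine anv_gr pd' (one_div_pos.2 hX').le ?_ u
      rw [mul_one_div, div_lt_one hX']
      exact hlt'
    rw [thR, thR, evC_eq_evz (one_div_pos.2 hX).le hgr, evC_eq_evz (one_div_pos.2 hX').le hgr', hev u]
    congr 2
    rw [hXX]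
    push_cast
    rw [div_pow, one_pow]
  · rintro σ π ⟨ξ', hξ', h⟩
    obtain ⟨ξ, hξ⟩ := IsAlgClosed.exists_pow_nat_eq ξ' (by omega : 0 < k)
    have hξe : ξ' ^ pd'.e = 1 := hξ'
    refine ⟨ξ, ?_, ?_⟩
    · rw [hek, pow_mul, hξ, hξe]
    · intro u j a ha
      by_cases hkj : k ∣ j
      · obtain ⟨l, rfl⟩ := hkj
        have h1 := h u l a (by rw [ha]; exact (hco u l).symm)
        have h2 : PowerSeries.coeff l (pd'.x (π u)) = PowerSeries.coeff (k * l) (Fm.pd.x (π u)) :=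
          hco (π u) l
        rw [pow_mul, hξ, h1]
        exact h2
      · rw [hnd u j hkj] at ha
        have ha0 : a = 0 := by
          apply Subtype.ext
          rw [ha]
          rfl
        rw [ha0, map_zero, mul_zero, hnd _ j hkj]



/-- the twisted curve of a rational fibre, explicit constants -/
theorem tyX (n m : ℕ) (hm : 1 ≤ m) (c : ℕ) :
    ∀ (B : ℕ) (f : ℤ[X][X]) (Fm : FamB n m B f) (a w : ℕ), 1 ≤ w →
    B ^ CV n m c * w ≤ a → ∀ ν : ℕ, m * n.factorial ≤ ν → ∃ P : Ptr ν,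
      P.x = ((a ^ m : ℕ) : ℤ) ∧ P.w = w ^ m ∧ Rlr (KAP n m) c P ∧
      TauR (thR Fm.pd m a w) Fm.pd P := by
  intro B f Fm a w hw ha ν hν
  obtain ⟨Fm', hmin, hth, hpr⟩ := redX n m B f Fm
  have hB1 : 0 < B := by
    have := Fm.B2
    omega
  have hle : ∀ k, k ≤ CV n m c → B ^ k * w ≤ a :=
    fun k hk => (Nat.mul_le_mul_right _ (Nat.pow_le_pow_right hB1 hk)).trans ha
  obtain ⟨P, hx, hxw, hr, tau, ht1, ht2, ht3, ht4⟩ := tyX0 n m hm c (B ^ (n.factorial + 1)) f Fm'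
    hmin a w hw (by
      rw [← pow_mul]
      exact hle _ (Nat.le_add_right _ _)) ν hν
  have hth' : thR Fm'.pd m a w = thR Fm.pd m a w :=
    funext (hth a w hw (hle _ (Nat.le_add_left _ _)))
  refine ⟨P, hx, hxw, hr, tau, ht1, ?_, ?_, ht4⟩
  · intro σ ν' hν' i j hk
    rw [← hth'] at hν'
    obtain ⟨π, hπ, h4⟩ := ht2 σ ν' hν' i j hk
    exact ⟨π, hpr σ π hπ, h4⟩
  · intro ζ hζ i j hr'
    obtain ⟨π, hπ, h4⟩ := ht3 ζ hζ i j hr'
    exact ⟨π, hpr idA π hπ, h4⟩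

end Pool.Agent.H37.XP

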