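import Pool.Agent.H37.XP.TYX
import Pool.Agent.H37.XP.IFM
import Pool.Agent.H26.TR.FBX
import Pool.Agent.H8.AF.Num

/-! # Explicit constants: the numbers (helper37)

`x = m v d^2`, `E = (2x)!`, `T = 2^E`. All constants of the curves are at most `T`; all constants of the theorem
are at most `T^212 ≤ 2^((3x)!)`. -/

set_option autoImplicit false

namespace Pool.Agent.H37.XP

open Finset Pool.Agent.H52.AC Pool.Agent.H34.AC

/-- the constant of the bad fibres -/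
def c1X (n m ν N : ℕ) : ℕ := cA (max ν (m * n.factorial)) + 2 * N ^ kE + CV n m (N ^ kE) +
  3 * n.factorial

/-- the constant of the fibres of a monic family -/
def CN (n m ν N : ℕ) : ℕ := Pool.Agent.H26.TR.cF n m * (c1X n m ν N + 6 * n.factorial) +
  c1X n m ν N + cA ν + 2

/-- the exponent `E` -/
def EN (d m v : ℕ) : ℕ := (2 * (m * v * d ^ 2)).factorial

/-- the number `T` -/
def TN (d m v : ℕ) : ℕ := 2 ^ EN d m v

/-- the exponent of the theorem -/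
def CE (d m v : ℕ) : ℕ := 2 ^ (3 * (m * v * d ^ 2)).factorial

private theorem le2 (k : ℕ) : k ≤ 2 ^ k := Nat.lt_two_pow_self.le

private theorem fac2 (k : ℕ) : k.factorial ≤ 2 ^ (k ^ 2) := by
  calc k.factorial ≤ k ^ k := Nat.factorial_le_pow k
    _ ≤ (2 ^ k) ^ k := Nat.pow_le_pow_left (le2 k) k
    _ = 2 ^ (k ^ 2) := by rw [← pow_mul, sq]

/-- the basic inequality -/
theorem EN_ge {d m v : ℕ} (hd : 3 ≤ d) (hm : 1 ≤ m) (hv : 1 ≤ v) :
    1000 * (m * d.factorial) ^ 2 ≤ EN d m v := by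
  have h1 : 2 * (m * d ^ 2) ≤ 2 * (m * v * d ^ 2) := by
    have : m * d ^ 2 ≤ m * v * d ^ 2 := Nat.mul_le_mul_right _ (Nat.le_mul_of_pos_right _ hv)
    omega
  refine le_trans ?_ (Nat.factorial_le h1)
  obtain ⟨k, hk⟩ : ∃ k, 2 * (m * d ^ 2) = 2 * d + k := ⟨2 * (m * d ^ 2) - 2 * d, by
    have : d ≤ m * d ^ 2 := (Nat.le_self_pow (by norm_num) d).trans (Nat.le_mul_of_pos_left _ hm)
    omega⟩
  have hk12 : 12 * m ≤ k := by
    have h2 : 12 * m + 2 * d ≤ 2 * (m * d ^ 2) := by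
      obtain ⟨e, rfl⟩ : ∃ e, d = 3 + e := ⟨d - 3, by omega⟩
      obtain ⟨l, rfl⟩ : ∃ l, m = 1 + l := ⟨m - 1, by omega⟩
      nlinarith [Nat.zero_le (e * l), Nat.zero_le (e ^ 2), Nat.zero_le (e ^ 2 * l)]
    omega
  have h2 := Nat.factorial_mul_pow_le_factorial (m := 2 * d) (n := k)
  rw [← hk] at h2
  refine le_trans ?_ h2
  have h3 : d.factorial ^ 2 ≤ (2 * d).factorial := by
    have h4 := Nat.factorial_mul_pow_le_factorial (m := d) (n := d)
    rw [← two_mul] at h4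
    refine le_trans ?_ h4
    rw [sq]
    refine Nat.mul_le_mul_left _ ?_
    exact (Nat.factorial_le_pow d).trans (Nat.pow_le_pow_left (Nat.le_succ d) d)
  have h5 : 1000 * m ^ 2 ≤ (2 * d + 1) ^ k := by
    have h6 : (7 : ℕ) ^ (12 * m) ≤ (2 * d + 1) ^ k :=
      (Nat.pow_le_pow_left (by omega) _).trans (Nat.pow_le_pow_right (by omega) hk12)
    refine le_trans ?_ h6
    rw [pow_mul]
    have h7 : m ^ 2 ≤ 4 ^ m := by
      calc m ^ 2 ≤ (2 ^ m) ^ 2 := Nat.pow_le_pow_left (le2 m) 2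
        _ = 4 ^ m := by rw [← pow_mul, mul_comm, pow_mul]; norm_num
    calc 1000 * m ^ 2 ≤ 1000 ^ m * 4 ^ m :=
          Nat.mul_le_mul (Nat.le_self_pow (by omega) 1000) h7
      _ = (1000 * 4) ^ m := (mul_pow _ _ _).symm
      _ ≤ (7 ^ 12) ^ m := Nat.pow_le_pow_left (by norm_num) m
  calc 1000 * (m * d.factorial) ^ 2 = d.factorial ^ 2 * (1000 * m ^ 2) := by ring
    _ ≤ (2 * d).factorial * (2 * d + 1) ^ k := Nat.mul_le_mul h3 h5

/-- the exponent of the theorem is large against `E` -/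
theorem CE_ge {d m v : ℕ} (hd : 3 ≤ d) (hm : 1 ≤ m) (hv : 1 ≤ v) {k : ℕ} (hk : k ≤ 10 ^ 9) :
    TN d m v ^ k ≤ CE d m v := by
  obtain ⟨x, hx⟩ : ∃ x, x = m * v * d ^ 2 := ⟨_, rfl⟩
  unfold TN CE EN
  rw [← hx, ← pow_mul]
  refine Nat.pow_le_pow_right (by norm_num) ?_
  have hx9 : 9 ≤ x := by
    rw [hx]
    calc 9 = 1 * 1 * 3 ^ 2 := rfl
      _ ≤ m * v * d ^ 2 := Nat.mul_le_mul (Nat.mul_le_mul hm hv) (Nat.pow_le_pow_left hd 2)
  have h2 := Nat.factorial_mul_pow_le_factorial (m := 2 * x) (n := x)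
  have h3 : 2 * x + x = 3 * x := by ring
  rw [h3] at h2
  refine le_trans (Nat.mul_le_mul_left _ ?_) h2
  calc k ≤ 10 ^ 9 := hk
    _ ≤ 19 ^ 9 := by norm_num
    _ ≤ (2 * x + 1) ^ 9 := Nat.pow_le_pow_left (by omega) 9
    _ ≤ (2 * x + 1) ^ x := Nat.pow_le_pow_right (by omega) hx9

section

variable {d m v n : ℕ}

/-- everything in terms of `y = m d!` -/
theorem TN_ge (hd : 3 ≤ d) (hm : 1 ≤ m) (hv : 1 ≤ v) {k : ℕ}
    (hk : k ≤ 1000 * (m * d.factorial) ^ 2) : 2 ^ k ≤ TN d m v :=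
  Nat.pow_le_pow_right (by norm_num) (hk.trans (EN_ge hd hm hv))

theorem y_ge (hd : 3 ≤ d) (hm : 1 ≤ m) : 6 ≤ m * d.factorial ∧ 2 * d ≤ m * d.factorial ∧
    d * (d + 1) ≤ 2 * (m * d.factorial) ∧ m ≤ m * d.factorial := by
  have h1 : (3 : ℕ).factorial ≤ d.factorial := Nat.factorial_le hd
  have h3 : (3 : ℕ).factorial = 6 := rfl
  have h2 : d.factorial ≤ m * d.factorial := Nat.le_mul_of_pos_left _ hm
  have h4 : d * (d - 1) ≤ d.factorial := by
    obtain ⟨e, rfl⟩ : ∃ e, d = e + 2 := ⟨d - 2, by omega⟩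
    rw [Nat.factorial_succ, Nat.factorial_succ]
    have : e + 2 - 1 = e + 1 := rfl
    rw [this, Nat.add_assoc]
    refine Nat.mul_le_mul_left _ ?_
    exact Nat.le_mul_of_pos_right _ (Nat.factorial_pos e)
  have h5 : 2 * d ≤ d * (d - 1) := by
    rw [mul_comm]
    exact Nat.mul_le_mul_left _ (by omega)
  have h6 : d * (d + 1) ≤ 2 * (d * (d - 1)) := by
    obtain ⟨e, rfl⟩ : ∃ e, d = e + 3 := ⟨d - 3, by omega⟩
    have : e + 3 - 1 = e + 2 := rfl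
    rw [this]
    nlinarith
  refine ⟨by omega, by omega, by omega, ?_⟩
  exact Nat.le_mul_of_pos_right _ (Nat.factorial_pos d)

theorem nu_le (hd : 3 ≤ d) (hm : 1 ≤ m) (hnd : n ≤ d) :
    max (d * (d + 1)) (m * n.factorial) ≤ 2 * (m * d.factorial) := by
  refine max_le (y_ge hd hm).2.2.1 ?_
  have : m * n.factorial ≤ m * d.factorial := Nat.mul_le_mul_left _ (Nat.factorial_le hnd)
  omega

theorem num_nu (hd : 3 ≤ d) (hm : 1 ≤ m) (hv : 1 ≤ v) (hnd : n ≤ d) :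
    (max (d * (d + 1)) (m * n.factorial)).factorial ≤ TN d m v := by
  refine (fac2 _).trans (TN_ge hd hm hv ?_)
  have h1 := Nat.pow_le_pow_left (nu_le (n := n) hd hm hnd) 2
  rw [mul_pow] at h1
  omega

theorem num_gap (hm : 1 ≤ m) (hnd : n ≤ d) : n * v ≤ TN d m v := by
  have h1 : n * v ≤ 2 * (m * v * d ^ 2) := by
    calc n * v ≤ d ^ 2 * v := Nat.mul_le_mul_right _ (hnd.trans (Nat.le_self_pow (by norm_num) d))
      _ ≤ m * (d ^ 2 * v) := Nat.le_mul_of_pos_left _ hm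
      _ = m * v * d ^ 2 := by ring
      _ ≤ _ := by omega
  exact ((h1.trans (Nat.self_le_factorial _)).trans (le2 _))

theorem num_KV (hd : 3 ≤ d) (hm : 1 ≤ m) (hnd : n ≤ d) :
    KV (m * n.factorial) ≤ 2 ^ (5 * (m * d.factorial) ^ 2) := by
  obtain ⟨y, hy⟩ : ∃ y, y = m * d.factorial := ⟨_, rfl⟩
  obtain ⟨M, hM⟩ : ∃ M, M = m * n.factorial := ⟨_, rfl⟩
  have hMy : M ≤ y := by
    rw [hM, hy]
    exact Nat.mul_le_mul_left _ (Nat.factorial_le hnd)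
  have hy6 : 6 ≤ y := by rw [hy]; exact (y_ge hd hm).1
  rw [← hy, ← hM]
  unfold KV
  have h1 : (2 * M).factorial ≤ 2 ^ (4 * y ^ 2) := by
    refine (Nat.factorial_le (by omega : 2 * M ≤ 2 * y)).trans ((fac2 _).trans (le_of_eq ?_))
    rw [mul_pow]
    norm_num
  have h2 : M * (M + 1) + (3 * M + 2 * (M * M)) ≤ 4 * y ^ 2 := by
    have : M * M ≤ y * M := Nat.mul_le_mul_right _ hMy
    have h3 : y * M ≤ y * y := Nat.mul_le_mul_left _ hMy
    nlinarith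
  have h3 : (M * (M + 1) + (3 * M + 2 * (M * M))) * (2 * M) ≤ 8 * y ^ 3 := by
    calc _ ≤ 4 * y ^ 2 * (2 * y) := Nat.mul_le_mul h2 (by omega)
      _ = 8 * y ^ 3 := by ring
  have h4 : 3 * M + 2 * (M * M) ≤ 4 * y ^ 2 := by
    have : M * M ≤ y * M := Nat.mul_le_mul_right _ hMy
    have h3 : y * M ≤ y * y := Nat.mul_le_mul_left _ hMy
    nlinarith
  have h5 : 8 * y ^ 3 + 4 * y ^ 2 + 1 ≤ 2 ^ (4 * y ^ 2) := by
    have e1 : 8 * y ^ 3 + 4 * y ^ 2 + 1 ≤ y ^ 5 := by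
      have : 6 * y ^ 2 ≤ y * y ^ 2 := Nat.mul_le_mul_right _ hy6
      have h6 : 36 * y ^ 3 ≤ y ^ 2 * y ^ 3 :=
        Nat.mul_le_mul_right _ (by nlinarith : 36 ≤ y ^ 2)
      have h7 : y ^ 2 * y ^ 3 = y ^ 5 := by ring
      have h8 : y * y ^ 2 = y ^ 3 := by ring
      have h9 : 0 < y ^ 2 := by positivity
      omega
    refine e1.trans ?_
    calc y ^ 5 ≤ (2 ^ y) ^ 5 := Nat.pow_le_pow_left (le2 y) 5
      _ = 2 ^ (y * 5) := by rw [← pow_mul]
      _ ≤ 2 ^ (4 * y ^ 2) := Nat.pow_le_pow_right (by norm_num) (by nlinarith)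
  have h6 : (2 : ℕ) ^ (5 * y ^ 2) = 2 ^ (4 * y ^ 2) * 2 ^ (y ^ 2) := by
    rw [← pow_add]
    congr 1
    ring
  have h7 : 2 ≤ 2 ^ (y ^ 2) := by
    calc 2 = 2 ^ 1 := rfl
      _ ≤ 2 ^ (y ^ 2) := Nat.pow_le_pow_right (by norm_num) (by nlinarith)
  rw [h6]
  have h8 : 2 ^ (4 * y ^ 2) * 2 ≤ 2 ^ (4 * y ^ 2) * 2 ^ (y ^ 2) := Nat.mul_le_mul_left _ h7
  omega

theorem num_small (hd : 3 ≤ d) (hm : 1 ≤ m) (hnd : n ≤ d) :
    (3 * n.factorial + m + 2) * n + 4 ≤ 2 ^ (3 * (m * d.factorial)) := by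
  obtain ⟨y, hy⟩ : ∃ y, y = m * d.factorial := ⟨_, rfl⟩
  have hy6 : 6 ≤ y := by rw [hy]; exact (y_ge hd hm).1
  have hdy : 2 * d ≤ y := by rw [hy]; exact (y_ge hd hm).2.1
  have hmy : m ≤ y := by rw [hy]; exact (y_ge hd hm).2.2.2
  have hny : n.factorial ≤ y := by
    rw [hy]
    exact (Nat.factorial_le hnd).trans (Nat.le_mul_of_pos_left _ hm)
  rw [← hy]
  have h1 : (3 * n.factorial + m + 2) * n + 4 ≤ y ^ 3 := by
    calc (3 * n.factorial + m + 2) * n + 4 ≤ (3 * y + y + 2) * y + 4 :=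
          Nat.add_le_add_right (Nat.mul_le_mul (by omega) (by omega)) 4
      _ ≤ y ^ 3 := by
        have h2 : 6 * y ^ 2 ≤ y * y ^ 2 := Nat.mul_le_mul_right _ hy6
        have h3 : y * y ^ 2 = y ^ 3 := by ring
        nlinarith
  refine h1.trans ?_
  calc y ^ 3 ≤ (2 ^ y) ^ 3 := Nat.pow_le_pow_left (le2 y) 3
    _ = 2 ^ (3 * y) := by rw [← pow_mul, mul_comm]

theorem num_KAP (hd : 3 ≤ d) (hm : 1 ≤ m) (hv : 1 ≤ v) (hnd : n ≤ d) :
    KAP n m ≤ TN d m v := by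
  unfold KAP
  refine (Nat.mul_le_mul (num_small hd hm hnd) (num_KV hd hm hnd)).trans ?_
  rw [← pow_add]
  refine TN_ge hd hm hv ?_
  have := (y_ge hd hm).1
  nlinarith

theorem num_LV (hd : 3 ≤ d) (hm : 1 ≤ m) (hnd : n ≤ d) :
    LV n m ≤ 2 * (m * d.factorial) ^ 3 := by
  obtain ⟨y, hy⟩ : ∃ y, y = m * d.factorial := ⟨_, rfl⟩
  have hy6 : 6 ≤ y := by rw [hy]; exact (y_ge hd hm).1
  have hdy : 2 * d ≤ y := by rw [hy]; exact (y_ge hd hm).2.1
  have hny : n.factorial ≤ y := by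
    rw [hy]
    exact (Nat.factorial_le hnd).trans (Nat.le_mul_of_pos_left _ hm)
  have hmny : m * n.factorial ≤ y := by
    rw [hy]
    exact Nat.mul_le_mul_left _ (Nat.factorial_le hnd)
  rw [← hy]
  unfold LV
  have h1 : n.factorial * n.factorial + n.factorial ≤ y * y + y :=
    Nat.add_le_add (Nat.mul_le_mul hny hny) hny
  have h2 : 2 * n ≤ y := by omega
  have h3 : m * n.factorial * (m * n.factorial) ≤ y * y := Nat.mul_le_mul hmny hmny
  have h4 : (n.factorial * n.factorial + n.factorial) * (2 * n) ≤ (y * y + y) * y :=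
    Nat.mul_le_mul h1 h2
  nlinarith [Nat.mul_le_mul_right (y * y) hy6]

theorem num_LVn (hd : 3 ≤ d) (hm : 1 ≤ m) (hv : 1 ≤ v) (hnd : n ≤ d) :
    n * (LV n m + 1) ^ n ≤ TN d m v := by
  obtain ⟨y, hy⟩ : ∃ y, y = m * d.factorial := ⟨_, rfl⟩
  have hy6 : 6 ≤ y := by rw [hy]; exact (y_ge hd hm).1
  have hdy : 2 * d ≤ y := by rw [hy]; exact (y_ge hd hm).2.1
  have h1 : LV n m + 1 ≤ 2 ^ (4 * y) := by
    have h2 := num_LV (n := n) hd hm hnd
    rw [← hy] at h2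
    have h3 : 2 * y ^ 3 + 1 ≤ y ^ 4 := by
      have h4 : 6 * y ^ 3 ≤ y * y ^ 3 := Nat.mul_le_mul_right _ hy6
      have h5 : y * y ^ 3 = y ^ 4 := by ring
      have h6 : 0 < y ^ 3 := by positivity
      omega
    calc LV n m + 1 ≤ 2 * y ^ 3 + 1 := by omega
      _ ≤ y ^ 4 := h3
      _ ≤ (2 ^ y) ^ 4 := Nat.pow_le_pow_left (le2 y) 4
      _ = 2 ^ (4 * y) := by rw [← pow_mul, mul_comm]
  calc n * (LV n m + 1) ^ n ≤ 2 ^ n * (2 ^ (4 * y)) ^ n :=
        Nat.mul_le_mul (le2 n) (Nat.pow_le_pow_left h1 n)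
    _ = 2 ^ (n + 4 * y * n) := by rw [← pow_mul, ← pow_add]
    _ ≤ TN d m v := by
      refine TN_ge hd hm hv ?_
      rw [← hy]
      have h2 : n ≤ y := by omega
      nlinarith [Nat.mul_le_mul_left (4 * y) h2]

theorem num_cF (hd : 3 ≤ d) (hm : 1 ≤ m) (hv : 1 ≤ v) (hn : 2 ≤ n) (hnd : n ≤ d) :
    Pool.Agent.H26.TR.cF n m ≤ TN d m v := by
  refine (Pool.Agent.H26.TR.cF_le hn hm).trans (TN_ge hd hm hv ?_)
  obtain ⟨y, hy⟩ : ∃ y, y = m * d.factorial := ⟨_, rfl⟩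
  rw [← hy]
  have hy6 : 6 ≤ y := by rw [hy]; exact (y_ge hd hm).1
  have h1 : n * (n + 1) ≤ 2 * y := by
    rw [hy]
    refine le_trans ?_ (y_ge hd hm).2.2.1
    exact Nat.mul_le_mul hnd (by omega)
  -- `n^3 ≤ 36 n!` is not needed: `m n^3 n! ≤ y n^3`, `n^3 ≤ 27 y`
  have h2 : m * n.factorial ≤ y := by
    rw [hy]
    exact Nat.mul_le_mul_left _ (Nat.factorial_le hnd)
  have h3 : n ^ 3 ≤ 27 * y := by
    have h4 : n ^ 3 ≤ d ^ 3 := Nat.pow_le_pow_left hnd 3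
    refine h4.trans ?_
    have h5 : d.factorial ≤ y := by
      rw [hy]
      exact Nat.le_mul_of_pos_left _ hm
    refine le_trans ?_ (Nat.mul_le_mul_left 27 h5)
    have key : ∀ k : ℕ, (k + 3) ^ 3 ≤ 27 * (k + 3).factorial := by
      intro k
      induction k with
      | zero => decide
      | succ k ih =>
        have e : k + 1 + 3 = (k + 3) + 1 := rfl
        rw [e, Nat.factorial_succ]
        have h6 : (k + 3 + 1) ^ 3 ≤ (k + 3 + 1) * (k + 3) ^ 3 := by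
          have : (k + 3 + 1) ^ 2 ≤ (k + 3) ^ 3 := by nlinarith [Nat.zero_le (k ^ 3), Nat.zero_le (k ^ 2)]
          calc (k + 3 + 1) ^ 3 = (k + 3 + 1) * (k + 3 + 1) ^ 2 := by ring
            _ ≤ _ := Nat.mul_le_mul_left _ this
        refine h6.trans ((Nat.mul_le_mul_left _ ih).trans (le_of_eq ?_))
        ring
    have h7 := key (d - 3)
    rwa [Nat.sub_add_cancel hd] at h7
  calc 14 * (m * n ^ 3 * n.factorial) = 14 * ((m * n.factorial) * n ^ 3) := by ring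
    _ ≤ 14 * (y * (27 * y)) := Nat.mul_le_mul_left _ (Nat.mul_le_mul h2 h3)
    _ ≤ 1000 * y ^ 2 := by nlinarith

theorem num_cA (hd : 3 ≤ d) (hm : 1 ≤ m) (hv : 1 ≤ v) {k : ℕ} (hk : k ≤ 2 * (m * d.factorial)) :
    cA k ≤ TN d m v := by
  obtain ⟨y, hy⟩ : ∃ y, y = m * d.factorial := ⟨_, rfl⟩
  have hy6 : 6 ≤ y := by rw [hy]; exact (y_ge hd hm).1
  rw [← hy] at hk
  unfold cA
  calc 20 * k ^ 2 * (10 ^ 6 * k ^ 5 * k.factorial) = 20000000 * k ^ 7 * k.factorial := by ring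
    _ ≤ 2 ^ 25 * (2 ^ (2 * y)) ^ 7 * 2 ^ (4 * y ^ 2) := by
      refine Nat.mul_le_mul (Nat.mul_le_mul (by norm_num) (Nat.pow_le_pow_left ?_ 7)) ?_
      · exact hk.trans (le2 _)
      · refine (Nat.factorial_le hk).trans ((fac2 _).trans (le_of_eq ?_))
        rw [mul_pow]
        norm_num
    _ = 2 ^ (25 + 2 * y * 7 + 4 * y ^ 2) := by rw [← pow_mul, ← pow_add, ← pow_add]
    _ ≤ TN d m v := by
      refine TN_ge hd hm hv ?_
      rw [← hy]
      nlinarith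

theorem num_fac (hd : 3 ≤ d) (hm : 1 ≤ m) (hv : 1 ≤ v) (hnd : n ≤ d) :
    6 * n.factorial + m + d + 10 ≤ TN d m v := by
  obtain ⟨y, hy⟩ : ∃ y, y = m * d.factorial := ⟨_, rfl⟩
  have hy6 : 6 ≤ y := by rw [hy]; exact (y_ge hd hm).1
  have hdy : 2 * d ≤ y := by rw [hy]; exact (y_ge hd hm).2.1
  have hmy : m ≤ y := by rw [hy]; exact (y_ge hd hm).2.2.2
  have hny : n.factorial ≤ y := by
    rw [hy]
    exact (Nat.factorial_le hnd).trans (Nat.le_mul_of_pos_left _ hm)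
  calc 6 * n.factorial + m + d + 10 ≤ 10 * y := by omega
    _ ≤ 2 ^ (10 * y) := le2 _
    _ ≤ TN d m v := by
      refine TN_ge hd hm hv ?_
      rw [← hy]
      nlinarith

theorem num_T (hd : 3 ≤ d) (hm : 1 ≤ m) (hv : 1 ≤ v) : 100 ≤ TN d m v := by
  calc 100 ≤ 2 ^ 7 := by norm_num
    _ ≤ TN d m v := by
      refine TN_ge hd hm hv ?_
      have := (y_ge hd hm).1
      nlinarith

theorem num_LV1 (hd : 3 ≤ d) (hm : 1 ≤ m) (hv : 1 ≤ v) (hnd : n ≤ d) : LV n m ≤ TN d m v := by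
  obtain ⟨y, hy⟩ : ∃ y, y = m * d.factorial := ⟨_, rfl⟩
  have hy6 : 6 ≤ y := by rw [hy]; exact (y_ge hd hm).1
  refine (num_LV hd hm hnd).trans ?_
  rw [← hy]
  calc 2 * y ^ 3 ≤ 2 ^ 1 * (2 ^ y) ^ 3 := Nat.mul_le_mul (by norm_num) (Nat.pow_le_pow_left (le2 y) 3)
    _ = 2 ^ (1 + y * 3) := by rw [← pow_mul, ← pow_add]
    _ ≤ TN d m v := by
      refine TN_ge hd hm hv ?_
      rw [← hy]
      nlinarith

/-- the constant of a family -/
theorem num_CN (hd : 3 ≤ d) (hm : 1 ≤ m) (hv : 1 ≤ v) (hn : 2 ≤ n) (hnd : n ≤ d) :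
    (m + 1) * n * CN n m (d * (d + 1)) (TN d m v) ≤ TN d m v ^ (kE + 8) := by
  have hT := num_T (v := v) hd hm hv
  have h1 := num_LVn (v := v) hd hm hv hnd
  have h2 := num_LV1 (v := v) hd hm hv hnd
  have h3 := num_cF (v := v) hd hm hv hn hnd
  have h4 := num_cA (v := v) hd hm hv (nu_le (n := n) hd hm hnd)
  have h5 := num_cA (v := v) hd hm hv ((y_ge hd hm).2.2.1)
  have h6 := num_fac (n := n) (v := v) hd hm hv hnd
  obtain ⟨T, hTd⟩ : ∃ T, T = TN d m v := ⟨_, rfl⟩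
  obtain ⟨F, hF⟩ : ∃ F, F = n.factorial := ⟨_, rfl⟩
  obtain ⟨W, hW⟩ : ∃ W, W = T ^ kE := ⟨_, rfl⟩
  rw [← hTd] at hT h1 h2 h3 h4 h5 h6 ⊢
  rw [← hF] at h6 h4
  have hT0 : 0 < T := by omega
  have hW0 : 0 < W := by
    rw [hW]
    exact Nat.pow_pos hT0
  have hWT : T ≤ W := by
    rw [hW]
    exact Nat.le_self_pow (by unfold kE; norm_num) T
  have hCV0 : CV0 n m W ≤ W * T := by
    unfold CV0
    rw [← hF]
    have : 9 * W ≤ W * T := by
      rw [mul_comm]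
      exact Nat.mul_le_mul_left _ (by omega)
    omega
  have hCV : CV n m W ≤ W * T * T := by
    unfold CV
    rw [← hF]
    have e1 : (F + 1) * CV0 n m W ≤ (F + 1) * (W * T) := Nat.mul_le_mul_left _ hCV0
    have e2 : F + 1 ≤ (F + 1) * (W * T) := Nat.le_mul_of_pos_right _ (by positivity)
    have e3 : (2 * (F + 1)) * (W * T) ≤ T * (W * T) := Nat.mul_le_mul_right _ (by omega)
    have e4 : (2 * (F + 1)) * (W * T) = (F + 1) * (W * T) + (F + 1) * (W * T) := by ring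
    have e5 : W * T * T = T * (W * T) := by ring
    omega
  have hWT2 : W ≤ W * T * T := by
    rw [mul_assoc]
    exact Nat.le_mul_of_pos_right _ (by positivity)
  have hc1 : c1X n m (d * (d + 1)) T ≤ W * T * T * T := by
    unfold c1X
    rw [← hW, ← hF]
    have e1 : 9 * (W * T * T) ≤ W * T * T * T := by
      rw [mul_comm]
      exact Nat.mul_le_mul_left _ (by omega)
    omega
  have hc1W : W ≤ W * T * T * T := by
    rw [mul_assoc, mul_assoc]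
    exact Nat.le_mul_of_pos_right _ (by positivity)
  have hCN : CN n m (d * (d + 1)) T ≤ W * T ^ 5 := by
    unfold CN
    rw [← hF]
    obtain ⟨U, hU⟩ : ∃ U, U = W * T * T * T := ⟨_, rfl⟩
    rw [← hU] at hc1 hc1W
    have e1 : Pool.Agent.H26.TR.cF n m * (c1X n m (d * (d + 1)) T + 6 * F) ≤ T * (2 * U) :=
      Nat.mul_le_mul h3 (by omega)
    have e2 : W * T ^ 5 = U * T * T := by rw [hU]; ring
    have e3 : U * T * 100 ≤ U * T * T := Nat.mul_le_mul_left _ hT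
    have e4 : U ≤ U * T := Nat.le_mul_of_pos_right _ (by omega)
    have e5 : T * (2 * U) = 2 * (U * T) := by ring
    rw [e2]
    omega
  calc (m + 1) * n * CN n m (d * (d + 1)) T ≤ T * T * (W * T ^ 5) := by
        refine Nat.mul_le_mul (Nat.mul_le_mul (by omega) (by omega)) hCN
    _ = T ^ (kE + 7) := by
        rw [hW]
        ring
    _ ≤ T ^ (kE + 8) := Nat.pow_le_pow_right (by omega) (by omega)

end

end Pool.Agent.H37.XP
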