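import Pool.Agent.H37.XP.NUM
import Pool.Agent.H26.TR.NPX

/-! # Explicit constants: the constant of `noPtX` (helper37) -/

set_option autoImplicit false

namespace Pool.Agent.H37.XP

open Finset

theorem CN26_le (n m ν N : ℕ) : Pool.Agent.H26.TR.CN n m ν N ≤ CN n m ν N := by
  have h1 : FV n m = Pool.Agent.H26.TR.cF n m := by
    unfold FV Pool.Agent.H26.TR.cF Pool.Agent.H26.TR.cFH Pool.Agent.H26.TR.cFC
    ring
  have h2 : Pool.Agent.H26.TR.cB n m ν N = c1X n m ν N := rfl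
  unfold Pool.Agent.H26.TR.CN CN
  rw [h1, h2]
  have h3 : c1X n m ν N + 3 * n.factorial ≤ c1X n m ν N + 6 * n.factorial := by omega
  have h4 := Nat.mul_le_mul_left (Pool.Agent.H26.TR.cF n m) h3
  omega

/-- the constant of `noPtX` with the degrees of the theorem -/
theorem num_CN26 {d m v n : ℕ} (hd : 3 ≤ d) (hm : 1 ≤ m) (hv : 1 ≤ v) (hn : 2 ≤ n) (hnd : n ≤ d) :
    (m + 1) * n * Pool.Agent.H26.TR.CN n m (d * (d + 1)) (TN d m v) ≤ TN d m v ^ (kE + 8) :=
  (Nat.mul_le_mul_left _ (CN26_le _ _ _ _)).trans (num_CN hd hm hv hn hnd)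

end Pool.Agent.H37.XP
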